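import Pool.Agent.Helper50.GT.Trig

/-!
# The cone over a space of directions
-/

set_option autoImplicit false

namespace Pool.Agent.Helper26.GT

open Pool.Agent.Helper50.GT Real

/-- Directions with their angles. -/
structure AngSp {D : Type} (Θ : D → D → ℝ) : Prop where
  self : ∀ x, Θ x x = 0
  symm : ∀ x y, Θ x y = Θ y x
  eq : ∀ x y, Θ x y = 0 → x = y
  le_pi : ∀ x y, Θ x y ≤ π
  tri : ∀ x y z, Θ x z ≤ Θ x y + Θ y z
  /-- intermediate points; any third point leaves one of the two directions backwards -/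
  mid : ∀ x y s, Θ x y < π → 0 ≤ s → s ≤ Θ x y → ∃ m, Θ x m = s ∧ Θ m y = Θ x y - s ∧
    ∀ p, Θ p m < π → cos (Θ p y) ≤ cos (Θ p m + Θ m y) ∨ cos (Θ p x) ≤ cos (Θ p m + Θ x m)

/-- `C` is the cone over `D`: points with a norm and a direction. -/
structure ConeOver {C D : Type} (Θ : D → D → ℝ) (nrm : C → ℝ) (dir : C → D) : Prop where
  ang : AngSp Θ
  nonneg : ∀ f, 0 ≤ nrm f
  inj : ∀ f g, nrm f = nrm g → (nrm f = 0 ∨ dir f = dir g) → f = g
  surj : ∀ (x : D) (r : ℝ), 0 < r → ∃ f, nrm f = r ∧ dir f = x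
  zero : ∃ f, nrm f = 0

section

variable {C D : Type} (Θ : D → D → ℝ) (nrm : C → ℝ) (dir : C → D)

/-- The distance in the cone. -/
noncomputable def cd (f g : C) : ℝ := Real.sqrt (lc (nrm f) (nrm g) (Θ (dir f) (dir g)))

variable {Θ nrm dir}

theorem AngSp.nonneg (h : AngSp Θ) (x y : D) : 0 ≤ Θ x y := by
  have := h.tri x y x
  rw [h.self, h.symm y x] at this
  linarith

theorem lc_nonneg (a b θ : ℝ) : 0 ≤ lc a b θ := by
  have : lc a b θ = (a - b * cos θ) ^ 2 + (b * sin θ) ^ 2 := by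
    unfold lc
    linear_combination (-b ^ 2) * (sin_sq_add_cos_sq θ)
  rw [this]
  positivity

theorem lc_mono {a b θ θ' : ℝ} (ha : 0 ≤ a) (hb : 0 ≤ b) (h0 : 0 ≤ θ) (h1 : θ ≤ θ')
    (h2 : θ' ≤ π) : lc a b θ ≤ lc a b θ' := by
  have := cos_le_cos_of_nonneg_of_le_pi h0 h2 h1
  have h3 := mul_le_mul_of_nonneg_left this (mul_nonneg ha hb)
  unfold lc
  linarith

theorem pol_dist (a b α γ : ℝ) :
    ‖(⟨a * cos α, a * sin α⟩ : ℂ) - ⟨b * cos γ, b * sin γ⟩‖ = Real.sqrt (lc a b (γ - α)) := by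
  rw [Complex.norm_def, Complex.normSq_apply]
  congr 1
  simp only [Complex.sub_re, Complex.sub_im]
  unfold lc
  rw [cos_sub]
  linear_combination a ^ 2 * (sin_sq_add_cos_sq α) + b ^ 2 * (sin_sq_add_cos_sq γ)

theorem cd_nonneg (f g : C) : 0 ≤ cd Θ nrm dir f g := Real.sqrt_nonneg _

theorem sq_cd (f g : C) : cd Θ nrm dir f g ^ 2 = lc (nrm f) (nrm g) (Θ (dir f) (dir g)) :=
  Real.sq_sqrt (lc_nonneg _ _ _)

theorem cd_self (h : ConeOver Θ nrm dir) (f : C) : cd Θ nrm dir f f = 0 := by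
  unfold cd
  rw [h.ang.self]
  unfold lc
  rw [cos_zero, Real.sqrt_eq_zero']
  apply le_of_eq
  ring

theorem cd_symm (h : ConeOver Θ nrm dir) (f g : C) : cd Θ nrm dir f g = cd Θ nrm dir g f := by
  unfold cd lc
  rw [h.ang.symm (dir f) (dir g)]
  congr 1
  ring

theorem cd_eq (h : ConeOver Θ nrm dir) (f g : C) (h0 : cd Θ nrm dir f g = 0) : f = g := by
  have h1 : lc (nrm f) (nrm g) (Θ (dir f) (dir g)) = 0 := by rw [← sq_cd, h0]; ring
  set a := nrm f with ha
  set b := nrm g with hb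
  have ha0 : 0 ≤ a := h.nonneg f
  have hb0 : 0 ≤ b := h.nonneg g
  have hc := cos_le_one (Θ (dir f) (dir g))
  have h2 : (a - b) ^ 2 + 2 * (a * b) * (1 - cos (Θ (dir f) (dir g))) = 0 := by
    unfold lc at h1
    linarith
  have h3 : 0 ≤ 2 * (a * b) * (1 - cos (Θ (dir f) (dir g))) :=
    mul_nonneg (by positivity) (by linarith)
  have h4 : (a - b) ^ 2 = 0 := le_antisymm (by linarith) (sq_nonneg _)
  have h5 : a = b := by
    have := pow_eq_zero_iff (two_ne_zero) |>.1 h4
    linarith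
  refine h.inj f g h5 ?_
  by_cases ha' : a = 0
  · exact Or.inl ha'
  · right
    have hpos : 0 < a := lt_of_le_of_ne ha0 (Ne.symm ha')
    have h6 : 2 * (a * b) * (1 - cos (Θ (dir f) (dir g))) = 0 := by
      apply le_antisymm _ h3
      linarith [sq_nonneg (a - b)]
    have h7 : cos (Θ (dir f) (dir g)) = 1 := by
      rcases mul_eq_zero.1 h6 with h7 | h7
      · exfalso
        rw [← h5] at h7
        have : 0 < 2 * (a * a) := by positivity
        linarith
      · linarith
    apply h.ang.eq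
    have h8 := h.ang.nonneg (dir f) (dir g)
    have h9 := h.ang.le_pi (dir f) (dir g)
    exact (cos_eq_one_iff_of_lt_of_lt (by linarith [pi_pos]) (by linarith [pi_pos])).1 h7

theorem cd_tri (h : ConeOver Θ nrm dir) (f g k : C) :
    cd Θ nrm dir f k ≤ cd Θ nrm dir f g + cd Θ nrm dir g k := by
  set α := Θ (dir f) (dir g) with hα
  set β := Θ (dir g) (dir k) with hβ
  have ht := h.ang.tri (dir f) (dir g) (dir k)
  have hα0 := h.ang.nonneg (dir f) (dir g)
  have hαπ := h.ang.le_pi (dir f) (dir g)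
  have hβ0 := h.ang.nonneg (dir g) (dir k)
  have hβπ := h.ang.le_pi (dir g) (dir k)
  have h1 : Θ (dir f) (dir k) ≤ min (α + β) π := le_min ht (h.ang.le_pi _ _)
  have h2 : cd Θ nrm dir f k ≤ Real.sqrt (lc (nrm f) (nrm k) (min (α + β) π - 0)) := by
    rw [sub_zero]
    exact Real.sqrt_le_sqrt (lc_mono (h.nonneg f) (h.nonneg k) (h.ang.nonneg _ _) h1
      (min_le_right _ _))
  have h3 : Real.sqrt (lc (nrm g) (nrm k) (min (α + β) π - α)) ≤ cd Θ nrm dir g k := by
    refine Real.sqrt_le_sqrt (lc_mono (h.nonneg g) (h.nonneg k) ?_ ?_ hβπ)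
    · rw [sub_nonneg]
      exact le_min (by linarith) hαπ
    · have := min_le_left (α + β) π
      linarith
  have h4 : cd Θ nrm dir f g = Real.sqrt (lc (nrm f) (nrm g) (α - 0)) := by
    rw [sub_zero]; rfl
  rw [← pol_dist] at h2 h3 h4
  rw [h4]
  refine h2.trans ?_
  refine (norm_sub_le_norm_sub_add_norm_sub _ (⟨nrm g * cos α, nrm g * sin α⟩ : ℂ) _).trans ?_
  linarith

/-- A point with given norm and direction. -/
theorem exists_pt (h : ConeOver Θ nrm dir) (x : D) {r : ℝ} (hr : 0 ≤ r) :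
    ∃ z, nrm z = r ∧ ∀ (y : D) (s : ℝ), lc s (nrm z) (Θ y (dir z)) = lc s r (Θ y x) := by
  rcases eq_or_lt_of_le hr with h0 | h0
  · obtain ⟨z, hz⟩ := h.zero
    refine ⟨z, by rw [hz, h0], fun y s => ?_⟩
    rw [hz, ← h0]
    unfold lc
    ring
  · obtain ⟨z, hz, hz'⟩ := h.surj x r h0
    exact ⟨z, hz, fun y s => by rw [hz, hz']⟩

/-- The conclusion of `cd_stewart`, for a point of norm `c` and direction `m`. -/
theorem stewart_aux (h : ConeOver Θ nrm dir) (f g : C) (t : ℝ) (h0 : 0 ≤ t) (h1 : t ≤ 1)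
    (m : D) {c : ℝ} (hc : 0 ≤ c)
    (e1 : lc (nrm f) c (Θ (dir f) m) = t ^ 2 * lc (nrm f) (nrm g) (Θ (dir f) (dir g)))
    (e2 : lc (nrm g) c (Θ (dir g) m) = (1 - t) ^ 2 * lc (nrm f) (nrm g) (Θ (dir f) (dir g)))
    (e3 : ∀ p, lc (nrm p) c (Θ (dir p) m) ≤ (1 - t) * lc (nrm p) (nrm f) (Θ (dir p) (dir f)) +
      t * lc (nrm p) (nrm g) (Θ (dir p) (dir g)) -
        t * (1 - t) * lc (nrm f) (nrm g) (Θ (dir f) (dir g))) :
    ∃ z, cd Θ nrm dir f z = t * cd Θ nrm dir f g ∧ cd Θ nrm dir z g = (1 - t) * cd Θ nrm dir f g ∧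
      ∀ p, cd Θ nrm dir p z ^ 2 ≤ (1 - t) * cd Θ nrm dir p f ^ 2 + t * cd Θ nrm dir p g ^ 2 -
        t * (1 - t) * cd Θ nrm dir f g ^ 2 := by
  obtain ⟨z, hz, hz'⟩ := exists_pt h m hc
  refine ⟨z, ?_, ?_, fun p => ?_⟩
  · have : cd Θ nrm dir f z ^ 2 = (t * cd Θ nrm dir f g) ^ 2 := by
      rw [sq_cd, hz', e1, mul_pow, sq_cd]
    exact (pow_left_inj₀ (cd_nonneg _ _) (mul_nonneg h0 (cd_nonneg _ _)) two_ne_zero).1 this
  · have : cd Θ nrm dir z g ^ 2 = ((1 - t) * cd Θ nrm dir f g) ^ 2 := by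
      rw [cd_symm h, sq_cd, hz', e2, mul_pow, sq_cd]
    exact (pow_left_inj₀ (cd_nonneg _ _) (mul_nonneg (by linarith) (cd_nonneg _ _))
      two_ne_zero).1 this
  · rw [sq_cd, sq_cd, sq_cd, sq_cd, hz']
    exact e3 p

/-- Points on segments and the inequality of Stewart. -/
theorem cd_stewart (h : ConeOver Θ nrm dir) (f g : C) (t : ℝ) (h0 : 0 ≤ t) (h1 : t ≤ 1) :
    ∃ z, cd Θ nrm dir f z = t * cd Θ nrm dir f g ∧ cd Θ nrm dir z g = (1 - t) * cd Θ nrm dir f g ∧
      ∀ p, cd Θ nrm dir p z ^ 2 ≤ (1 - t) * cd Θ nrm dir p f ^ 2 + t * cd Θ nrm dir p g ^ 2 -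
        t * (1 - t) * cd Θ nrm dir f g ^ 2 := by
  have ha := h.nonneg f
  have hb := h.nonneg g
  have hθ0 := h.ang.nonneg (dir f) (dir g)
  have hθπ := h.ang.le_pi (dir f) (dir g)
  rcases eq_or_lt_of_le ha with ha' | ha'
  · -- `f` is the apex
    refine stewart_aux h f g t h0 h1 (dir g) (c := t * nrm g) (by positivity) ?_ ?_ fun p => ?_
    · rw [← ha']; unfold lc; ring
    · rw [← ha', h.ang.self]; unfold lc; rw [cos_zero]; ring
    · rw [← ha']; unfold lc; apply le_of_eq; ring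
  rcases eq_or_lt_of_le hb with hb' | hb'
  · refine stewart_aux h f g t h0 h1 (dir f) (c := (1 - t) * nrm f)
      (mul_nonneg (by linarith) ha) ?_ ?_ fun p => ?_
    · rw [← hb', h.ang.self]; unfold lc; rw [cos_zero]; ring
    · rw [← hb']; unfold lc; ring
    · rw [← hb']; unfold lc; apply le_of_eq; ring
  rcases eq_or_lt_of_le hθπ with hθ | hθ
  · -- through the apex
    have hcc : ∀ p : C, cos (Θ (dir p) (dir f)) + cos (Θ (dir p) (dir g)) ≤ 0 := fun p => by
      have h2 := h.ang.tri (dir f) (dir p) (dir g)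
      rw [hθ, h.ang.symm (dir f) (dir p)] at h2
      have h3 := cos_le_cos_of_nonneg_of_le_pi (x := π - Θ (dir p) (dir g))
        (y := Θ (dir p) (dir f)) (by linarith [h.ang.le_pi (dir p) (dir g)])
        (h.ang.le_pi _ _) (by linarith)
      rw [cos_pi_sub] at h3
      linarith
    by_cases hs : t * (nrm f + nrm g) ≤ nrm f
    · refine stewart_aux h f g t h0 h1 (dir f) (c := nrm f - t * (nrm f + nrm g))
        (by linarith) ?_ ?_ fun p => ?_
      · rw [hθ, h.ang.self]; unfold lc; rw [cos_zero, cos_pi]; ring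
      · rw [h.ang.symm (dir g), hθ]; unfold lc; rw [cos_pi]; ring
      · rw [hθ]
        have h2 := mul_le_mul_of_nonneg_left (hcc p)
          (mul_nonneg (h.nonneg p) (mul_nonneg h0 hb))
        unfold lc
        rw [cos_pi]
        nlinarith
    · push Not at hs
      refine stewart_aux h f g t h0 h1 (dir g) (c := t * (nrm f + nrm g) - nrm f)
        (by linarith) ?_ ?_ fun p => ?_
      · rw [hθ]; unfold lc; rw [cos_pi]; ring
      · rw [hθ, h.ang.self]; unfold lc; rw [cos_zero, cos_pi]; ring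
      · rw [hθ]
        have h2 := mul_le_mul_of_nonneg_left (hcc p)
          (mul_nonneg (h.nonneg p) (mul_nonneg (by linarith : 0 ≤ 1 - t) ha))
        unfold lc
        rw [cos_pi]
        nlinarith
  rcases eq_or_lt_of_le hθ0 with hθ' | hθ'
  · -- same direction
    have hd : dir f = dir g := h.ang.eq _ _ hθ'.symm
    refine stewart_aux h f g t h0 h1 (dir f) (c := (1 - t) * nrm f + t * nrm g)
      (add_nonneg (mul_nonneg (by linarith) ha) (mul_nonneg h0 hb)) ?_ ?_ fun p => ?_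
    · rw [← hθ', h.ang.self]; unfold lc; rw [cos_zero]; ring
    · rw [← hθ', ← hd, h.ang.self]; unfold lc; rw [cos_zero]; ring
    · rw [← hθ', ← hd]; unfold lc; rw [cos_zero]; apply le_of_eq; ring
  -- the planar case
  set a := nrm f with hfa
  set b := nrm g with hgb
  set θ := Θ (dir f) (dir g) with hθd
  set z₀ : ℂ := ⟨(1 - t) * a + t * b * cos θ, t * b * sin θ⟩ with hz₀
  set c := ‖z₀‖ with hc
  set s := Complex.arg z₀ with hs
  have hre : c * cos s = (1 - t) * a + t * b * cos θ := Complex.norm_mul_cos_arg z₀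
  have him : c * sin s = t * b * sin θ := Complex.norm_mul_sin_arg z₀
  have hc0 : 0 ≤ c := norm_nonneg _
  have hsq := sin_sq_add_cos_sq s
  have hsin : 0 < sin θ := sin_pos_of_pos_of_lt_pi hθ' hθ
  have E2 : (1 - t) * a * cos s + t * b * cos (θ - s) = c := by
    rw [cos_sub]
    linear_combination (-cos s) * hre - sin s * him + c * hsq
  have E1 : (1 - t) * a * sin s = t * b * sin (θ - s) := by
    rw [sin_sub]
    linear_combination (-sin s) * hre + cos s * him
  have hs0 : 0 ≤ s := by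
    rw [hs, Complex.arg_nonneg_iff]
    show 0 ≤ t * b * sin θ
    positivity
  have hsπ : s ≤ π := Complex.arg_le_pi _
  have hss : 0 ≤ sin s := sin_nonneg_of_nonneg_of_le_pi hs0 hsπ
  have hsθ : s ≤ θ := by
    by_contra hlt
    push Not at hlt
    have h2 : sin (θ - s) < 0 := sin_neg_of_neg_of_neg_pi_lt (by linarith) (by linarith)
    have h3 : 0 ≤ (1 - t) * a * sin s := mul_nonneg (mul_nonneg (by linarith) ha) hss
    have h4 : t = 0 := by
      by_contra ht
      have ht' : 0 < t := lt_of_le_of_ne h0 (Ne.symm ht)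
      have : t * b * sin (θ - s) < 0 := mul_neg_of_pos_of_neg (by positivity) h2
      linarith
    rw [h4] at E1 E2
    have h5 : a * sin s = 0 := by linarith
    have h6 : sin s = 0 := by
      rcases mul_eq_zero.1 h5 with h6 | h6
      · exact absurd h6 ha'.ne'
      · exact h6
    have h7 : s = π := by
      rcases lt_or_eq_of_le hsπ with h8 | h8
      · exact absurd (sin_pos_of_pos_of_lt_pi (by linarith) h8) (by rw [h6]; exact lt_irrefl 0)
      · exact h8
    rw [h7, cos_pi] at E2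
    linarith
  have hcsq : c ^ 2 = ((1 - t) * a + t * b * cos θ) ^ 2 + (t * b * sin θ) ^ 2 := by
    rw [← hre, ← him]
    linear_combination (-c ^ 2) * hsq
  have hθsq := sin_sq_add_cos_sq θ
  obtain ⟨m, hm1, hm2, hm3⟩ := h.ang.mid (dir f) (dir g) s hθ hs0 hsθ
  refine stewart_aux h f g t h0 h1 m hc0 ?_ ?_ fun p => ?_
  · rw [hm1]
    change a ^ 2 + c ^ 2 - 2 * a * c * cos s = t ^ 2 * (a ^ 2 + b ^ 2 - 2 * a * b * cos θ)
    rw [show 2 * a * c * cos s = 2 * a * (c * cos s) by ring, hre, hcsq]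
    linear_combination (t * b) ^ 2 * hθsq
  · rw [h.ang.symm (dir g) m, hm2]
    change b ^ 2 + c ^ 2 - 2 * b * c * cos (θ - s) =
      (1 - t) ^ 2 * (a ^ 2 + b ^ 2 - 2 * a * b * cos θ)
    rw [cos_sub, show 2 * b * c * (cos θ * cos s + sin θ * sin s) =
      2 * b * (cos θ * (c * cos s) + sin θ * (c * sin s)) by ring, hre, him, hcsq]
    linear_combination (t ^ 2 * b ^ 2 - 2 * b ^ 2 * t) * hθsq
  · set x := nrm p with hx
    have hx0 : 0 ≤ x := h.nonneg p
    set α := Θ (dir p) (dir f) with hα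
    set β := Θ (dir p) (dir g) with hβ
    set μ := Θ (dir p) m with hμ
    have hα0 := h.ang.nonneg (dir p) (dir f)
    have hαπ : α ≤ π := h.ang.le_pi _ _
    have hβπ : β ≤ π := h.ang.le_pi _ _
    have hμπ : μ ≤ π := h.ang.le_pi _ _
    have t1 : μ ≤ α + s := by rw [← hm1]; exact h.ang.tri (dir p) (dir f) m
    have t2 : s ≤ α + μ := by
      have := h.ang.tri (dir f) (dir p) m
      rwa [hm1, h.ang.symm (dir f) (dir p)] at this
    have t2' : α ≤ μ + s := by
      have := h.ang.tri (dir p) m (dir f)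
      rwa [h.ang.symm m, hm1] at this
    have t3 : μ ≤ β + (θ - s) := by
      have := h.ang.tri (dir p) (dir g) m
      rwa [h.ang.symm (dir g) m, hm2] at this
    have t4 : θ - s ≤ β + μ := by
      have := h.ang.tri m (dir p) (dir g)
      rw [hm2, h.ang.symm m (dir p)] at this
      linarith
    -- the main inequality
    have main : (1 - t) * a * cos α + t * b * cos β ≤ c * cos μ := by
      rcases eq_or_lt_of_le hμπ with hμ' | hμ'
      · rw [hμ', cos_pi]
        have c1 := cos_le_cos_of_nonneg_of_le_pi (x := π - s) (y := α) (by linarith) hαπ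
          (by linarith)
        have c2 := cos_le_cos_of_nonneg_of_le_pi (x := π - (θ - s)) (y := β) (by linarith) hβπ
          (by linarith)
        rw [cos_pi_sub] at c1 c2
        have d1 := mul_le_mul_of_nonneg_left c1 (mul_nonneg (by linarith : 0 ≤ 1 - t) ha)
        have d2 := mul_le_mul_of_nonneg_left c2 (mul_nonneg h0 hb)
        linarith
      · have hL := hm3 (dir p) hμ'
        rw [hm2, hm1] at hL
        have key := stewart_core hs0 (by linarith : 0 ≤ θ - s) (by linarith)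
          (abs_le.2 ⟨by linarith, by linarith⟩) hαπ (abs_le.2 ⟨by linarith, by linarith⟩) hβπ hL
        rw [show s + (θ - s) = θ by ring] at key
        have hA : c * sin (θ - s) = (1 - t) * a * sin θ := by
          rw [← E2, show sin θ = sin (s + (θ - s)) by rw [show s + (θ - s) = θ by ring], sin_add]
          linear_combination (-cos (θ - s)) * E1
        have hB : c * sin s = t * b * sin θ := him
        have h3 : sin θ * ((1 - t) * a * cos α + t * b * cos β) ≤ sin θ * (c * cos μ) := by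
          have := mul_le_mul_of_nonneg_left key hc0
          calc _ = (c * sin (θ - s)) * cos α + (c * sin s) * cos β := by rw [hA, hB]; ring
            _ ≤ _ := by linarith
        exact le_of_mul_le_mul_left h3 hsin
    have hcc : c ^ 2 = (1 - t) * a ^ 2 + t * b ^ 2 - t * (1 - t) * lc a b θ := by
      unfold lc
      rw [hcsq]
      linear_combination (t * b) ^ 2 * hθsq
    have := mul_le_mul_of_nonneg_left main hx0
    unfold lc at hcc ⊢
    nlinarith

end

end Pool.Agent.Helper26.GT
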