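import Pool.Agent.Helper50.GT.Graph

/-!
# The free edge in a link
-/

set_option autoImplicit false

namespace Pool.Agent.Helper26.GT

open Pool.Agent.Helper50.GT Real SimpleGraph

theorem wt_mapLe {A : Type*} {G H : SimpleGraph A} {w : A → A → ℝ} (h : H ≤ G) {a b : A}
    (p : H.Walk a b) : wt w (p.mapLe h) = wt w p := by
  induction p with
  | nil => rfl
  | cons e p ih => simp only [Walk.mapLe, Walk.map_cons, wt_cons] at ih ⊢; rw [ih]; rfl

section

variable {A : Type*} {G : SimpleGraph A} {w : A → A → ℝ}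

/-- The ends of an edge in the ball of radius `π / 2` about `n`. -/
theorem ball_step (h : Circ G w (2 * π)) (hw : ∀ a b, G.Adj a b → w a b < π) {n a b : A}
    (hab : G.Adj a b) {p : G.Walk n a} {q : G.Walk n b} (hp : p.IsPath) (hq : q.IsPath)
    (hp' : wt w p < π / 2) (hq' : wt w q < π / 2) :
    wt w q = wt w p + w a b ∨ wt w p = wt w q + w a b := by
  classical
  have h0 : ∀ a b, G.Adj a b → 0 ≤ w a b := fun a b hab => (h.pos a b hab).le
  have hwab := hw a b hab
  by_cases hb : b ∈ p.support
  · right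
    have e1 : (p.takeUntil b hb) = q := by
      by_contra hne
      have := h.two_paths (hp.takeUntil hb) hq hne
      have h5 : wt w (p.takeUntil b hb) ≤ wt w p := by
        conv_rhs => rw [← Walk.take_spec p hb, wt_append]
        linarith [wt_nonneg h0 (p.dropUntil b hb)]
      linarith [pi_pos]
    have e2 : p.dropUntil b hb = Walk.cons hab.symm Walk.nil := by
      by_contra hne
      have := h.two_paths (hp.dropUntil hb) (Walk.IsPath.of_adj hab.symm) hne
      have h5 : wt w (p.dropUntil b hb) ≤ wt w p := by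
        conv_rhs => rw [← Walk.take_spec p hb, wt_append]
        linarith [wt_nonneg h0 (p.takeUntil b hb)]
      have h6 : wt w (hab.symm.toWalk) = w a b := by
        simp [SimpleGraph.Adj.toWalk, h.symm b a]
      linarith [pi_pos]
    calc wt w p = wt w (p.takeUntil b hb) + wt w (p.dropUntil b hb) := by
          conv_lhs => rw [← Walk.take_spec p hb, wt_append]
      _ = _ := by rw [e1, e2]; simp [h.symm b a]
  · left
    have e1 : p.concat hab = q := by
      by_contra hne
      have := h.two_paths (hp.concat hb hab) hq hne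
      rw [wt_concat] at this
      linarith [pi_pos]
    rw [← e1, wt_concat]

/-- Paths in the ball of radius `π / 2`. -/
theorem ball_path (h : Circ G w (2 * π)) (hw : ∀ a b, G.Adj a b → w a b < π) {n u v : A}
    (P : G.Walk u v) (hP : P.IsPath)
    (hb : ∀ c ∈ P.support, ∃ p : G.Walk n c, p.IsPath ∧ wt w p < π / 2)
    {p : G.Walk n u} {q : G.Walk n v} (hp : p.IsPath) (hq : q.IsPath)
    (hp' : wt w p < π / 2) (hq' : wt w q < π / 2) : wt w P ≤ wt w p + wt w q := by
  have h0 : ∀ a b, G.Adj a b → 0 ≤ w a b := fun a b hab => (h.pos a b hab).le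
  induction P with
  | nil => rw [wt_nil]; linarith [wt_nonneg h0 p, wt_nonneg h0 q]
  | @cons u u' v e P ih =>
    obtain ⟨p', hp1, hp2⟩ := hb u' (by simp)
    have ih' := ih (Walk.IsPath.of_cons hP)
      (fun c hc => hb c (by rw [Walk.support_cons]; exact List.mem_cons_of_mem _ hc))
      hp1 hq hp2 hq'
    rw [wt_cons]
    rcases ball_step h hw e hp hp1 hp' hp2 with h1 | h1
    · obtain ⟨r, hr, hrw, -, -⟩ := exists_path h0 (p.reverse.append q)
      rw [wt_append, wt_reverse h.symm] at hrw
      have e1 : Walk.cons e P = r := by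
        by_contra hne
        have := h.two_paths hP hr hne
        rw [wt_cons] at this
        linarith
      rw [← wt_cons e P, e1]
      exact hrw
    · linarith

end

/-- `K` is a finite set of edges all of whose vertices have distance less than `π / 2` from `n`,
`F` is a convex set of vertices: there is a leaf `a` of `K`, with neighbour `b`, such that `b` is in
`F` if `a` is in `F`. -/
theorem good_leaf {A : Type*} {G : SimpleGraph A} {w : A → A → ℝ} (h : Circ G w (2 * π))
    (hw : ∀ a b, G.Adj a b → w a b < π) (n : A)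
    (K : A → A → Prop) (hK : ∀ a b, K a b → G.Adj a b) (hs : ∀ a b, K a b → K b a)
    (hfin : {p : A × A | K p.1 p.2}.Finite) (hne : ∃ a b, K a b)
    (hball : ∀ a b, K a b → ∃ p : G.Walk n a, wt w p < π / 2) (F : A → Prop)
    (hF : ∀ a b (p : G.Walk a b), p.IsPath → wt w p < π → F a → F b → ∀ c ∈ p.support, F c) :
    ∃ a b, K a b ∧ (∀ c, K a c → c = b) ∧ (F a → F b) := by
  classical
  have h0 : ∀ a b, G.Adj a b → 0 ≤ w a b := fun a b hab => (h.pos a b hab).le
  let H : SimpleGraph A := ⟨K, ⟨hs⟩, ⟨fun a ha => (hK a a ha).ne rfl⟩⟩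
  have hHG : H ≤ G := fun a b hab => hK a b hab
  have hball' : ∀ a b, K a b → ∃ p : G.Walk n a, p.IsPath ∧ wt w p < π / 2 := fun a b hab => by
    obtain ⟨p, hp⟩ := hball a b hab
    obtain ⟨q, hq, hqw, -, -⟩ := exists_path h0 p
    exact ⟨q, hq, hqw.trans_lt hp⟩
  haveI : Nonempty A := ⟨n⟩
  haveI : Finite H.edgeSet := by
    refine (hfin.image (fun p => s(p.1, p.2))).subset ?_
    intro e
    induction e using Sym2.ind with
    | _ a b =>
      intro hab
      exact ⟨(a, b), hab, rfl⟩
  obtain ⟨u, v, P, hP, hmax⟩ := Walk.exists_isPath_forall_isPath_length_le_length H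
  obtain ⟨a₀, b₀, hab₀⟩ := hne
  have hlen : 1 ≤ P.length := by
    have := hmax a₀ b₀ (Walk.cons hab₀ Walk.nil) (Walk.IsPath.of_adj hab₀)
    simpa using this
  have hnil : ¬ P.Nil := by
    rw [Walk.not_nil_iff_lt_length]; omega
  -- the vertices of a path in `H` are in the ball
  have hsup : ∀ {x y : A} (Q : H.Walk x y), ¬ Q.Nil → ∀ c ∈ Q.support,
      ∃ p : G.Walk n c, p.IsPath ∧ wt w p < π / 2 := by
    intro x y Q hQ c hc
    obtain ⟨d, hd⟩ : ∃ d, K c d := by
      by_cases hcy : c = y
      · exact ⟨_, hs _ _ (by rw [hcy]; exact Q.adj_penultimate hQ)⟩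
      · obtain ⟨i, hi, hi'⟩ := Walk.mem_support_iff_exists_getVert.1 hc
        have hlt : i < Q.length := by
          rcases lt_or_eq_of_le hi' with h1 | h1
          · exact h1
          · exact absurd (by rw [← hi, h1, Walk.getVert_length]) hcy
        refine ⟨Q.getVert (i + 1), ?_⟩
        rw [← hi]
        exact Q.adj_getVert_succ hlt
    exact hball' c d hd
  -- the leaf
  have key : ∀ {u v : A} (P : H.Walk u v), P.IsPath → ¬ P.Nil →
      (∀ (u' v' : A) (p' : H.Walk u' v'), p'.IsPath → p'.length ≤ P.length) →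
      K u P.snd ∧ ∀ c, K u c → c = P.snd := by
    intro u v P hP hnil hmax
    refine ⟨P.adj_snd hnil, fun c hc => ?_⟩
    have hc' : H.Adj u c := hc
    have hcs : c ∈ P.support := by
      by_contra hcs
      have h1 : (Walk.cons hc'.symm P).IsPath := by
        rw [Walk.cons_isPath_iff]; exact ⟨hP, hcs⟩
      have h2 := hmax _ _ _ h1
      rw [Walk.length_cons] at h2
      omega
    by_contra hne'
    have hQ : (P.takeUntil c hcs).IsPath := hP.takeUntil hcs
    have hQn : ¬ (P.takeUntil c hcs).Nil := fun hn => hc'.ne hn.eq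
    obtain ⟨pu, hpu, hpu'⟩ := hball' u c hc
    obtain ⟨pc, hpc, hpc'⟩ := hball' c u (hs _ _ hc)
    have h1 := ball_path h hw ((P.takeUntil c hcs).mapLe hHG) (hQ.mapLe hHG)
      (fun d hd => hsup _ hQn d (by simpa using hd)) hpu hpc hpu' hpc'
    have h2 : (P.takeUntil c hcs).mapLe hHG ≠ Walk.cons (hHG hc') Walk.nil := by
      intro he
      have h3 : (P.takeUntil c hcs).length = 1 := by
        have := congrArg Walk.length he
        simpa using this
      apply hne'
      have h4 : P.getVert 1 = c := by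
        rw [← h3]; exact Walk.getVert_length_takeUntil hcs
      rw [← h4]
    have h3 := h.two_paths (hQ.mapLe hHG) (Walk.IsPath.of_adj (hHG hc')) h2
    have h4 : wt w (hHG hc').toWalk = w u c := by simp [SimpleGraph.Adj.toWalk]
    have h5 := hw u c (hHG hc')
    rw [h4] at h3
    linarith
  obtain ⟨h1, h2⟩ := key P hP hnil hmax
  have hrn : ¬ P.reverse.Nil := by simpa using hnil
  obtain ⟨h3, h4⟩ := key P.reverse (by simpa using hP) hrn
    (fun u' v' p' hp' => by rw [Walk.length_reverse]; exact hmax u' v' p' hp')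
  by_cases hFu : F u → F P.snd
  · exact ⟨u, P.snd, h1, h2, hFu⟩
  · by_cases hFv : F v → F P.reverse.snd
    · exact ⟨v, P.reverse.snd, h3, h4, hFv⟩
    · exfalso
      push Not at hFu hFv
      obtain ⟨pu, hpu, hpu'⟩ := hball' u _ h1
      obtain ⟨pv, hpv, hpv'⟩ := hball' v _ h3
      have h5 := ball_path h hw (P.mapLe hHG) (hP.mapLe hHG)
        (fun d hd => hsup _ hnil d (by simpa using hd)) hpu hpv hpu' hpv'
      refine hFu.2 (hF u v (P.mapLe hHG) (hP.mapLe hHG) (by linarith) hFu.1 hFv.1 _ ?_)
      have : P.snd ∈ P.support := Walk.getVert_mem_support _ _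
      simpa using this

end Pool.Agent.Helper26.GT
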