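import Pool.Agent.Helper37.CH.Loc
import Pool.Agent.Helper3.FJ.Cpx

/-!
# Simple connectivity at a scale from a cover by stars
-/

set_option autoImplicit false

namespace Pool.Agent.Helper50.GT

open Relation Pool.Agent.Helper3.FJ Pool.Agent.Helper37.CH

/-- A metric space `P` which is covered by sets `St v` (open stars of the vertices of `U`) which
contract to points (`ctr v t` is the contraction, `t = 0` is the point, `t = 1` the identity), with
the intersection pattern of `U`. -/
structure Stars {V : Type} (U : Cpx V) (P : Type) [MetricSpace P] (δ L : ℝ) (St : V → Set P)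
    (ctr : V → ℝ → P → P) : Prop where
  cover : ∀ x y : P, dist x y < δ / 2 → ∃ v, x ∈ St v ∧ y ∈ St v
  one : ∀ v, ∀ x ∈ St v, ctr v 1 x = x
  zero : ∀ v, ∀ x ∈ St v, ∀ y ∈ St v, ctr v 0 x = ctr v 0 y
  lip : ∀ v, ∀ x ∈ St v, ∀ y ∈ St v, dist x y < δ / 2 → ∀ t : ℝ, 0 ≤ t → t ≤ 1 →
    dist (ctr v t x) (ctr v t y) < δ / 2
  step : ∀ v, ∀ x ∈ St v, ∀ s t : ℝ, 0 ≤ s → s ≤ t → t ≤ 1 →
    dist (ctr v s x) (ctr v t x) ≤ L * (t - s)
  inter : ∀ u v, ∀ x ∈ St u, x ∈ St v → u = v ∨ U.adj u v
  conn : ∀ u v, U.adj u v → ∀ x ∈ St u ∩ St v, ∀ y ∈ St u ∩ St v,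
    ReflTransGen (fun a b => dist a b < δ / 2 ∧ a ∈ St u ∩ St v ∧ b ∈ St u ∩ St v) x y
  nonempty : ∀ v, (St v).Nonempty
  nonempty₂ : ∀ u v, U.adj u v → (St u ∩ St v).Nonempty
  nonempty₃ : ∀ u v w, U.tri u v w → (St u ∩ St v ∩ St w).Nonempty

section

variable {P : Type} [MetricSpace P] {δ : ℝ} {H : Type} [Group H]

/-- The product along a sequence. -/
def pp (c : P → P → H) (a : ℕ → P) : ℕ → H
  | 0 => 1
  | n + 1 => pp c a n * c (a n) (a (n + 1))

theorem ladder {c : P → P → H} (hδ : 0 < δ)
    (hc : ∀ x y z, dist x y < δ → dist y z < δ → dist x z < δ → c x y * c y z = c x z)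
    {a b : ℕ → P} (h0 : a 0 = b 0) (n : ℕ) (ha : ∀ i < n, dist (a i) (a (i + 1)) < δ / 2)
    (hb : ∀ i < n, dist (b i) (b (i + 1)) < δ / 2) (hab : ∀ i ≤ n, dist (a i) (b i) < δ / 2) :
    pp c a n * c (a n) (b n) = pp c b n := by
  have hcc : ∀ x, c x x = 1 := fun x => by
    have := hc x x x (by simpa using hδ) (by simpa using hδ) (by simpa using hδ)
    exact mul_eq_left.1 this
  induction n with
  | zero => rw [← h0]; simp [pp, hcc]
  | succ n ih =>
    have ih' := ih (fun i hi => ha i (by omega)) (fun i hi => hb i (by omega))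
      (fun i hi => hab i (by omega))
    have h1 := ha n (by omega)
    have h2 := hb n (by omega)
    have h3 := hab n (by omega)
    have h4 := hab (n + 1) le_rfl
    have h5 : dist (a n) (b (n + 1)) < δ :=
      (dist_triangle _ _ _).trans_lt (by linarith : _ + dist (a (n + 1)) (b (n + 1)) < δ)
    have e1 := hc (a n) (a (n + 1)) (b (n + 1)) (by linarith) (by linarith) h5
    have e2 := hc (a n) (b n) (b (n + 1)) (by linarith) (by linarith) h5
    rw [pp, pp, mul_assoc, e1, ← e2, ← mul_assoc, ih']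

end

section

variable {V : Type} {U : Cpx V} {P : Type} [MetricSpace P] {δ L ε : ℝ} {St : V → Set P}
  {ctr : V → ℝ → P → P}

theorem Stars.chain (h : Stars U P δ L St ctr) {N : ℕ} (hN : 0 < N) (hLN : L / N < δ / 2) (v : V)
    {x : P} (hx : x ∈ St v) (i : ℕ) (hi : i < N) :
    dist (ctr v (i / N) x) (ctr v (((i + 1 : ℕ) : ℝ) / N) x) < δ / 2 := by
  have hN' : (0 : ℝ) < N := by exact_mod_cast hN
  have hi' : ((i + 1 : ℕ) : ℝ) ≤ N := by exact_mod_cast hi
  refine (h.step v x hx _ _ (by positivity) ?_ ?_).trans_lt ?_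
  · gcongr
    exact Nat.le_succ i
  · rwa [div_le_one hN']
  · have : L * (((i + 1 : ℕ) : ℝ) / N - (i : ℝ) / N) = L / N := by
      push_cast
      field_simp
      ring
    rwa [this]

theorem Stars.conn_pt (h : Stars U P δ L St ctr) (hδ : 0 < δ) {N : ℕ} (hN : 0 < N)
    (hLN : L / N < δ / 2) (v : V) {x : P} (hx : x ∈ St v) :
    ReflTransGen (fun a b : P => dist a b < δ) (ctr v 0 x) x := by
  have key : ∀ n ≤ N, ReflTransGen (fun a b : P => dist a b < δ) (ctr v 0 x)
      (ctr v ((n : ℝ) / N) x) := by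
    intro n
    induction n with
    | zero => intro _; simpa using ReflTransGen.refl
    | succ n ih =>
      intro hn
      refine (ih (by omega)).tail ?_
      have := h.chain hN hLN v hx n (by omega)
      linarith
  have := key N le_rfl
  rwa [div_self (by exact_mod_cast hN.ne'), h.one v x hx] at this

theorem Stars.scAt (h : Stars U P δ L St ctr) (hU : U.SimplyConn) (hP : LocCat P ε) (hδ : 0 < δ)
    (hδε : δ ≤ ε) : ScAt P δ := by
  classical
  obtain ⟨N, hN, hLN⟩ : ∃ N : ℕ, 0 < N ∧ L / N < δ / 2 := by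
    obtain ⟨N, hN⟩ := exists_nat_gt (max 0 (L / (δ / 2)))
    have hN0 : (0 : ℝ) < N := (le_max_left _ _).trans_lt hN
    refine ⟨N, by exact_mod_cast hN0, ?_⟩
    have := (le_max_right _ _).trans_lt hN
    rw [div_lt_iff₀ (by linarith)] at this
    rw [div_lt_iff₀ hN0]
    linarith
  have hsymm : ∀ {x y : P}, ReflTransGen (fun a b : P => dist a b < δ) x y →
      ReflTransGen (fun a b : P => dist a b < δ) y x := fun hxy => by
    induction hxy with
    | refl => exact ReflTransGen.refl
    | tail _ hbc ih => exact ReflTransGen.head (by rwa [dist_comm]) ih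
  refine ⟨?_, ?_⟩
  · -- connectivity
    have h1 : ∀ v, ∀ x ∈ St v, ∀ y ∈ St v, ReflTransGen (fun a b : P => dist a b < δ) x y :=
      fun v x hx y hy => (hsymm (h.conn_pt hδ hN hLN v hx)).trans (by
        rw [h.zero v x hx y hy]; exact h.conn_pt hδ hN hLN v hy)
    have h2 : ∀ u v, ReflTransGen U.adj u v → ∀ x ∈ St u, ∀ y ∈ St v,
        ReflTransGen (fun a b : P => dist a b < δ) x y := by
      intro u v huv
      induction huv with
      | refl => exact h1 u
      | @tail v w _ hvw ih =>
        intro x hx y hy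
        obtain ⟨z, hz1, hz2⟩ := h.nonempty₂ v w hvw
        exact (ih x hx z hz1).trans (h1 w z hz2 y hy)
    intro x y
    obtain ⟨u, hu, -⟩ := h.cover x x (by simpa using by linarith)
    obtain ⟨v, hv, -⟩ := h.cover y y (by simpa using by linarith)
    exact h2 u v (hU.2.1 u v) x hu y hv
  · intro H _ c hc
    have hcc : ∀ x, c x x = 1 := fun x => by
      have := hc x x x (by simpa using hδ) (by simpa using hδ) (by simpa using hδ)
      exact mul_eq_left.1 this
    -- the stars
    set gs : V → P → H := fun v x => pp c (fun i => ctr v ((i : ℝ) / N) x) N with hgs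
    have hg : ∀ v, ∀ x ∈ St v, ∀ y ∈ St v, dist x y < δ / 2 → c x y = (gs v x)⁻¹ * gs v y := by
      intro v x hx y hy hxy
      have hlad := ladder (a := fun i => ctr v ((i : ℝ) / N) x)
        (b := fun i => ctr v ((i : ℝ) / N) y) hδ hc (by simpa using h.zero v x hx y hy) N
        (fun i hi => h.chain hN hLN v hx i hi) (fun i hi => h.chain hN hLN v hy i hi)
        (fun i hi => h.lip v x hx y hy hxy _ (by positivity) (by
          rw [div_le_one (by exact_mod_cast hN)]; exact_mod_cast hi))
      have hNN : (N : ℝ) / N = 1 := div_self (by exact_mod_cast hN.ne')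
      simp only [hNN, h.one v x hx, h.one v y hy] at hlad
      rw [eq_inv_mul_iff_mul_eq]
      exact hlad
    -- the intersections
    have hk : ∀ u v, U.adj u v → ∀ x ∈ St u ∩ St v, ∀ y ∈ St u ∩ St v,
        gs u x * (gs v x)⁻¹ = gs u y * (gs v y)⁻¹ := by
      intro u v huv x hx y hy
      have h1 := h.conn u v huv x hx y hy
      clear hy
      induction h1 with
      | refl => rfl
      | @tail y z _ hyz ih =>
        rw [ih]
        obtain ⟨hd, hy, hz⟩ := hyz
        have e1 := hg u y hy.1 z hz.1 hd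
        have e2 := hg v y hy.2 z hz.2 hd
        rw [e1] at e2
        rw [mul_inv_eq_iff_eq_mul, mul_assoc, eq_comm]
        rw [inv_mul_eq_iff_eq_mul, ← mul_assoc] at e2
        rw [e2]
        group
    set k : V → V → H := fun u v => if huv : U.adj u v then
      gs u (h.nonempty₂ u v huv).some * (gs v (h.nonempty₂ u v huv).some)⁻¹ else 1 with hkd
    have hk' : ∀ u v, U.adj u v → ∀ x ∈ St u, x ∈ St v → k u v = gs u x * (gs v x)⁻¹ := by
      intro u v huv x hx hx'
      rw [hkd]
      simp only [dif_pos huv]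
      exact hk u v huv _ (h.nonempty₂ u v huv).some_mem _ ⟨hx, hx'⟩
    obtain ⟨f, hf⟩ := hU.2.2 H k ⟨fun u v huv => by
        obtain ⟨x, hx, hx'⟩ := h.nonempty₂ u v huv
        rw [hk' u v huv x hx hx', hk' v u (U.adj_symm _ _ huv) x hx' hx]
        group,
      fun u v w huvw => by
        obtain ⟨x, ⟨hx, hx'⟩, hx''⟩ := h.nonempty₃ u v w huvw
        have h1 := U.tri_adj _ _ _ huvw
        have h2 := U.tri_adj _ _ _ (U.tri_rot _ _ _ huvw)
        have h3 := U.tri_adj _ _ _ (U.tri_rot _ _ _ (U.tri_rot _ _ _ huvw))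
        rw [hk' u v h1 x hx hx', hk' v w h2 x hx' hx'', hk' w u h3 x hx'' hx]
        group⟩
    have hex : ∀ x : P, ∃ v, x ∈ St v := fun x => by
      obtain ⟨v, hv, -⟩ := h.cover x x (by simpa using by linarith)
      exact ⟨v, hv⟩
    choose vx hvx using hex
    set g : P → H := fun x => f (vx x) * gs (vx x) x with hgd
    have hg' : ∀ v, ∀ x ∈ St v, g x = f v * gs v x := by
      intro v x hx
      rcases h.inter (vx x) v x (hvx x) hx with h1 | h1
      · rw [hgd]; simp only [h1]
      · have e1 := hk' (vx x) v h1 x (hvx x) hx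
        rw [hf _ _ h1] at e1
        rw [hgd]
        simp only
        rw [inv_mul_eq_iff_eq_mul] at e1
        rw [e1]
        group
    have hshort : ∀ x y, dist x y < δ / 2 → c x y = (g x)⁻¹ * g y := by
      intro x y hxy
      obtain ⟨v, hx, hy⟩ := h.cover x y hxy
      rw [hg' v x hx, hg' v y hy, hg v x hx y hy hxy]
      group
    refine ⟨g, fun x y hxy => ?_⟩
    obtain ⟨m, hm1, hm2⟩ := hP.exists_mid (hxy.trans_le hδε)
    have h1 : dist x m < δ / 2 := by rw [hm1]; linarith
    have h2 : dist m y < δ / 2 := by rw [hm2]; linarith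
    rw [← hc x m y (by linarith) (by linarith) hxy, hshort x m h1, hshort m y h2]
    group

end

end Pool.Agent.Helper50.GT
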