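import Pool.Agent.Helper63.GT.Chart
import Pool.Agent.Helper26.GT.Scale
import Pool.Agent.Helper50.GT.Sc

/-!
# The stars of the vertices in the realization of a piecewise Euclidean complex
-/

set_option autoImplicit false

namespace Pool.Agent.Helper50.GT

open Relation Real Pool.Agent.Helper3.FJ Pool.Agent.Helper3.FJ.Cpx Pool.Agent.Helper37.CH
  Pool.Agent.Helper26.GT Pool.Agent.Helper63.GT

variable {V : Type} {D : PE V}

/-- `p` and `q` lie in a common closed cell. -/
def Com (p q : Rz D) : Prop := ∃ v a b, Cel D.U v a b ∧ On3 p.f v a b ∧ On3 q.f v a b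

theorem On3.finite {f : V → ℝ} {v a b : V} (h : On3 f v a b) : (Function.support f).Finite := by
  classical
  refine (Finset.finite_toSet ({v, a, b} : Finset V)).subset fun c hc => ?_
  by_contra hcon
  simp only [Finset.coe_insert, Finset.coe_singleton, Set.mem_insert_iff,
    Set.mem_singleton_iff, not_or] at hcon
  exact hc (h c hcon.1 hcon.2.1 hcon.2.2)

/-- The points of the segment between two points of a common cell. -/
def mix (p q : Rz D) (h : Com p q) (t : ℝ) (h0 : 0 ≤ t) (h1 : t ≤ 1) : Rz D where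
  f c := (1 - t) * p.f c + t * q.f c
  nonneg c := add_nonneg (mul_nonneg (by linarith) (p.nonneg c)) (mul_nonneg h0 (q.nonneg c))
  sum := by
    obtain ⟨v, a, b, -, h2, h3⟩ := h
    have h4 := On3.finite h2
    have h5 := On3.finite h3
    have hs : ∀ (r : ℝ) (f : V → ℝ), Function.support (fun c => r * f c) ⊆ Function.support f :=
      fun r f c hc hc' => hc (by simp only [hc', mul_zero])
    rw [finsum_add_distrib (h4.subset (hs _ _)) (h5.subset (hs _ _)), ← mul_finsum,
      ← mul_finsum, p.sum, q.sum]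
    ring
  ex := by
    obtain ⟨v, a, b, h2, h3, h4⟩ := h
    exact ⟨v, a, b, h2, fun c h5 h6 h7 => by
      simp only [h3 c h5 h6 h7, h4 c h5 h6 h7, mul_zero, add_zero]⟩

theorem mix_f {p q : Rz D} (h : Com p q) {t : ℝ} (h0 : 0 ≤ t) (h1 : t ≤ 1) (c : V) :
    (mix p q h t h0 h1).f c = (1 - t) * p.f c + t * q.f c := rfl

theorem mix_zero {p q : Rz D} (h : Com p q) : mix p q h 0 le_rfl zero_le_one = p :=
  Rz.ext fun c => by rw [mix_f]; ring

theorem mix_one {p q : Rz D} (h : Com p q) : mix p q h 1 zero_le_one le_rfl = q :=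
  Rz.ext fun c => by rw [mix_f]; ring

theorem abs_sub_le_one (p q : Rz D) (c : V) : |q.f c - p.f c| ≤ 1 := by
  have h1 := p.nonneg c
  have h2 := q.nonneg c
  have h3 := p.le_one c
  have h4 := q.le_one c
  rw [abs_le]
  constructor <;> linarith

theorem mix_dist {p q : Rz D} (h : Com p q) {s t : ℝ} (hs0 : 0 ≤ s) (hs1 : s ≤ 1) (ht0 : 0 ≤ t)
    (ht1 : t ≤ 1) :
    dist (mix p q h s hs0 hs1) (mix p q h t ht0 ht1) ≤ 2 * |D.M| * |s - t| := by
  rw [Helper63.GT.dist_def]
  have hst : ∀ c, (mix p q h s hs0 hs1).f c - (mix p q h t ht0 ht1).f c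
      = (s - t) * (q.f c - p.f c) := fun c => by rw [mix_f, mix_f]; ring
  have hR : 0 ≤ 2 * |D.M| * |s - t| := by positivity
  have hcom := h
  obtain ⟨v, a, b, h2, h3, h4⟩ := hcom
  have on : ∀ u (hu0 : 0 ≤ u) (hu1 : u ≤ 1), On3 (mix p q h u hu0 hu1).f v a b :=
    fun u hu0 hu1 c h5 h6 h7 => by
      rw [mix_f, h3 c h5 h6 h7, h4 c h5 h6 h7, mul_zero, mul_zero, add_zero]
  rcases h2 with ⟨rfl, rfl⟩ | ⟨h2, rfl⟩ | h2
  · have : mix p q h s hs0 hs1 = mix p q h t ht0 ht1 := Rz.ext fun c => by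
      by_cases hc : c = b
      · subst hc
        have e1 := p.s1 h3
        have e2 := q.s1 h4
        rw [mix_f, mix_f, e1, e2]
        ring
      · rw [on s hs0 hs1 c hc hc hc, on t ht0 ht1 c hc hc hc]
    rw [this, dst_self]
    exact hR
  · have h5 := (RLoc.edge h2 (on s hs0 hs1) (on t ht0 ht1)).dst_le
    refine h5.trans ?_
    rw [hst, abs_mul]
    have h6 := abs_sub_le_one p q a
    have h7 := D.met.pos _ _ h2
    have h8 := D.le_M h2
    have h9 := le_abs_self D.M
    have h10 := abs_nonneg (s - t)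
    have h11 : |q.f a - p.f a| * D.ℓ v a ≤ 1 * |D.M| :=
      mul_le_mul h6 (h8.trans h9) h7.le zero_le_one
    have h12 := mul_le_mul_of_nonneg_left h11 h10
    nlinarith [mul_nonneg h10 (abs_nonneg D.M)]
  · have h5 := (RLoc.tri h2 (on s hs0 hs1) (on t ht0 ht1)).dst_le
    refine h5.trans ?_
    rw [Real.sqrt_le_left hR]
    have e1 := D.met.pos _ _ (D.U.tri_adj _ _ _ h2)
    have e2 := D.met.pos _ _ (tri_adj2 h2)
    have e3 := D.met.pos _ _ (tri_adj3 h2)
    have f1 := (D.le_M (D.U.tri_adj _ _ _ h2)).trans (le_abs_self D.M)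
    have f2 := (D.le_M (tri_adj2 h2)).trans (le_abs_self D.M)
    have f3 := (D.le_M (tri_adj3 h2)).trans (le_abs_self D.M)
    have key : ∀ x y l : ℝ, |x| ≤ 1 → |y| ≤ 1 → 0 < l → l ≤ |D.M| →
        -(x * y * l ^ 2) ≤ |D.M| ^ 2 := fun x y l hx hy hl hl' => by
      have g1 : |x * y| ≤ 1 := by
        rw [abs_mul]
        exact mul_le_one₀ hx (abs_nonneg _) hy
      have g2 : l ^ 2 ≤ |D.M| ^ 2 := pow_le_pow_left₀ hl.le hl' 2
      have g3 := (abs_le.1 g1).1
      nlinarith [sq_nonneg l]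
    have k1 := key _ _ _ (abs_sub_le_one p q v) (abs_sub_le_one p q a) e1 f1
    have k2 := key _ _ _ (abs_sub_le_one p q v) (abs_sub_le_one p q b) e2 f2
    have k3 := key _ _ _ (abs_sub_le_one p q a) (abs_sub_le_one p q b) e3 f3
    have hQ : Q3 D.ℓ v a b (fun c => (mix p q h s hs0 hs1).f c - (mix p q h t ht0 ht1).f c) =
        (s - t) ^ 2 * Q3 D.ℓ v a b (fun c => q.f c - p.f c) := by
      unfold Q3
      simp only [hst]
      ring
    have hQ' : Q3 D.ℓ v a b (fun c => q.f c - p.f c) ≤ 4 * |D.M| ^ 2 := by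
      unfold Q3
      simp only
      nlinarith [sq_nonneg |D.M|]
    rw [hQ]
    have := mul_le_mul_of_nonneg_left hQ' (sq_nonneg (s - t))
    rw [mul_pow, mul_pow, sq_abs (s - t)]
    linarith

/-- Two points of a common cell are connected by a chain in any convex set. -/
theorem mix_chain {p q : Rz D} (h : Com p q) {S : Set (Rz D)}
    (hS : ∀ t h0 h1, mix p q h t h0 h1 ∈ S) {η : ℝ} (hη : 0 < η) :
    ReflTransGen (fun a b => dist a b < η ∧ a ∈ S ∧ b ∈ S) p q := by
  obtain ⟨N, hN, hLN⟩ : ∃ N : ℕ, 0 < N ∧ 2 * |D.M| / N < η := by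
    obtain ⟨N, hN⟩ := exists_nat_gt (max 0 (2 * |D.M| / η))
    have hN0 : (0 : ℝ) < N := (le_max_left _ _).trans_lt hN
    refine ⟨N, by exact_mod_cast hN0, ?_⟩
    have := (le_max_right _ _).trans_lt hN
    rw [div_lt_iff₀ hη] at this
    rw [div_lt_iff₀ hN0]
    linarith
  have hN' : (0 : ℝ) < N := by exact_mod_cast hN
  have hb : ∀ n : ℕ, n ≤ N → (n : ℝ) / N ≤ 1 := fun n hn => by
    rw [div_le_one hN']
    exact_mod_cast hn
  have key : ∀ n : ℕ, ∀ hn : n ≤ N, ReflTransGen (fun a b => dist a b < η ∧ a ∈ S ∧ b ∈ S) p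
      (mix p q h (n / N) (by positivity) (hb n hn)) := by
    intro n
    induction n with
    | zero =>
      intro hn
      have : mix p q h ((0 : ℕ) / N : ℝ) (by positivity) (hb 0 hn) = p := by
        refine Rz.ext fun c => ?_
        rw [mix_f, Nat.cast_zero, zero_div]
        ring
      rw [this]
    | succ n ih =>
      intro hn
      refine (ih (by omega)).tail ⟨?_, hS _ _ _, hS _ _ _⟩
      refine (mix_dist h _ _ _ _).trans_lt ?_
      have h1 : |(n : ℝ) / N - ((n + 1 : ℕ) : ℝ) / N| = 1 / N := by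
        rw [show (n : ℝ) / N - ((n + 1 : ℕ) : ℝ) / N = -(1 / N) by push_cast; ring, abs_neg,
          abs_of_pos (by positivity)]
      rw [h1, mul_one_div]
      exact hLN
  have h2 := key N le_rfl
  have : mix p q h ((N : ℕ) / N : ℝ) (by positivity) (hb N le_rfl) = q := by
    refine Rz.ext fun c => ?_
    rw [mix_f, div_self hN'.ne']
    ring
  rwa [this] at h2

/-- The star of a vertex. -/
def St (D : PE V) (v : V) : Set (Rz D) := {p | 1 / 4 < p.f v}

open Classical in
/-- A vertex. -/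
noncomputable def vx (D : PE V) (v : V) : Rz D where
  f c := if c = v then 1 else 0
  nonneg c := by split_ifs <;> norm_num
  sum := by
    have h : On3 (fun c => if c = v then (1 : ℝ) else 0) v v v := fun c h _ _ => if_neg h
    rw [h.sum1, if_pos rfl]
  ex := ⟨v, v, v, Or.inl ⟨rfl, rfl⟩, fun c h _ _ => if_neg h⟩

theorem vx_self (D : PE V) (v : V) : (vx D v).f v = 1 := if_pos rfl

theorem vx_ne (D : PE V) {v c : V} (h : c ≠ v) : (vx D v).f c = 0 := if_neg h

theorem com_vx {v : V} {p : Rz D} (h : ClSt v p) : Com (vx D v) p := by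
  obtain ⟨a, b, h1, h2⟩ := h
  exact ⟨v, a, b, h1, fun c h3 _ _ => vx_ne D h3, h2⟩

open Classical in
/-- The contraction of the star of `v`. -/
noncomputable def ctr (D : PE V) (v : V) (t : ℝ) (p : Rz D) : Rz D :=
  if h : ClSt v p ∧ 0 ≤ t ∧ t ≤ 1 then mix (vx D v) p (com_vx h.1) t h.2.1 h.2.2 else p

theorem ctr_eq {v : V} {p : Rz D} (h : ClSt v p) {t : ℝ} (h0 : 0 ≤ t) (h1 : t ≤ 1) :
    ctr D v t p = mix (vx D v) p (com_vx h) t h0 h1 := dif_pos ⟨h, h0, h1⟩

theorem clSt_of_mem {v : V} {p : Rz D} (h : p ∈ St D v) : ClSt v p :=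
  clSt_of_ne (by have : 1 / 4 < p.f v := h; linarith)

theorem ctr_self {v : V} {p : Rz D} (h : ClSt v p) {t : ℝ} (h0 : 0 ≤ t) (h1 : t ≤ 1) :
    (ctr D v t p).f v = 1 - t + t * p.f v := by
  rw [ctr_eq h h0 h1, mix_f, vx_self, mul_one]

theorem ctr_ne {v c : V} {p : Rz D} (h : ClSt v p) {t : ℝ} (h0 : 0 ≤ t) (h1 : t ≤ 1)
    (hc : c ≠ v) : (ctr D v t p).f c = t * p.f c := by
  rw [ctr_eq h h0 h1, mix_f, vx_ne D hc, mul_zero, zero_add]

theorem cht_ctr {v : V} {p : Rz D} (h : p ∈ St D v) {t : ℝ} (h0 : 0 ≤ t) (h1 : t ≤ 1) :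
    cht v (ctr D v t p) = (cht v p).smul t h0 := by
  have hcl := clSt_of_mem h
  have h' : 1 / 4 < p.f v := h
  have h3 : (ctr D v t p).f v ≠ 0 := by
    rw [ctr_self hcl h0 h1]
    rcases h0.eq_or_lt with rfl | h0
    · norm_num
    · have := mul_pos h0 (show 0 < p.f v by linarith)
      linarith
  refine CPt.ext fun a => ?_
  rw [smul_f, cht_f hcl, cht_f (clSt_of_ne h3), ctr_ne hcl h0 h1 (D.ne a.2).symm]
  ring

theorem ctr_mem {v : V} {p : Rz D} (h : p ∈ St D v) {t : ℝ} (h0 : 0 ≤ t) (h1 : t ≤ 1) :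
    1 / 4 < (ctr D v t p).f v := by
  have hcl := clSt_of_mem h
  have h' : 1 / 4 < p.f v := h
  rw [ctr_self hcl h0 h1]
  rcases h0.eq_or_lt with rfl | h0
  · norm_num
  · have := mul_lt_mul_of_pos_left h' h0
    linarith

open Classical in
/-- The midpoint of an edge. -/
noncomputable def mid {u v : V} (h : D.U.adj u v) : Rz D where
  f c := if c = u then 1 / 2 else if c = v then 1 / 2 else 0
  nonneg c := by split_ifs <;> norm_num
  sum := by
    have h1 : On3 (fun c => if c = u then (1 / 2 : ℝ) else if c = v then 1 / 2 else 0) u v v :=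
      fun c h2 h3 _ => by simp only [if_neg h2, if_neg h3]
    rw [h1.sum2 (D.ne h)]
    simp only [if_true, if_neg (D.ne h).symm]
    norm_num
  ex := ⟨u, v, v, Or.inr (Or.inl ⟨h, rfl⟩), fun c h2 h3 _ => by
    simp only [if_neg h2, if_neg h3]⟩

theorem mid_left {u v : V} (h : D.U.adj u v) : (mid h).f u = 1 / 2 := if_pos rfl

theorem mid_right {u v : V} (h : D.U.adj u v) : (mid h).f v = 1 / 2 := by
  classical
  change (if v = u then 1 / 2 else if v = v then (1 / 2 : ℝ) else 0) = 1 / 2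
  rw [if_neg (D.ne h).symm, if_pos rfl]

theorem mid_zero {u v : V} (h : D.U.adj u v) {c : V} (h1 : c ≠ u) (h2 : c ≠ v) :
    (mid h).f c = 0 := by
  classical
  change (if c = u then 1 / 2 else if c = v then (1 / 2 : ℝ) else 0) = 0
  rw [if_neg h1, if_neg h2]

theorem com_mid {u v : V} (h : D.U.adj u v) {p : Rz D} (hu : p.f u ≠ 0) (hv : p.f v ≠ 0) :
    Com p (mid h) := by
  obtain ⟨a, b, h1, h2⟩ := clSt_of_ne hu
  refine ⟨u, a, b, h1, h2, fun c h3 h4 h5 => mid_zero h h3 ?_⟩
  rintro rfl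
  exact hv (h2 c h3 h4 h5)

theorem mem_mix_mid {u v : V} (h : D.U.adj u v) {p : Rz D} (hu : p ∈ St D u) (hv : p ∈ St D v)
    (hc : Com p (mid h)) (t : ℝ) (h0 : 0 ≤ t) (h1 : t ≤ 1) :
    mix p (mid h) hc t h0 h1 ∈ St D u ∩ St D v := by
  have hu' : 1 / 4 < p.f u := hu
  have hv' : 1 / 4 < p.f v := hv
  constructor
  · change 1 / 4 < (mix p (mid h) hc t h0 h1).f u
    rw [mix_f, mid_left]
    rcases h0.eq_or_lt with rfl | h0
    · linarith
    · nlinarith
  · change 1 / 4 < (mix p (mid h) hc t h0 h1).f v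
    rw [mix_f, mid_right]
    rcases h0.eq_or_lt with rfl | h0
    · linarith
    · nlinarith

open Classical in
/-- The barycenter of a triangle. -/
noncomputable def bar {u v w : V} (h : D.U.tri u v w) : Rz D where
  f c := if c = u then 1 / 3 else if c = v then 1 / 3 else if c = w then 1 / 3 else 0
  nonneg c := by split_ifs <;> norm_num
  sum := by
    have h1 : On3 (fun c => if c = u then (1 / 3 : ℝ) else if c = v then 1 / 3 else
        if c = w then 1 / 3 else 0) u v w :=
      fun c h2 h3 h4 => by simp only [if_neg h2, if_neg h3, if_neg h4]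
    have e1 := D.ne (D.U.tri_adj _ _ _ h)
    have e2 := D.ne (tri_adj2 h)
    have e3 := D.ne (tri_adj3 h)
    rw [h1.sum3 e1 e2 e3]
    simp only [if_true, if_neg e1.symm, if_neg e2.symm, if_neg e3.symm]
    norm_num
  ex := ⟨u, v, w, Or.inr (Or.inr h), fun c h2 h3 h4 => by
    simp only [if_neg h2, if_neg h3, if_neg h4]⟩

/-- **The stars of the vertices.** -/
theorem stars (D : PE V) {δ : ℝ} (hδ : 0 < δ) (hδρ : δ ≤ D.ρ) :
    Stars D.U (Rz D) δ (2 * |D.M|) (St D) (ctr D) where
  cover x y hxy := by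
    obtain ⟨v, hv⟩ := x.exists_third
    rw [Helper63.GT.dist_def] at hxy
    have h1 := coord_lip (v := v) (p := x) (q := y) (by linarith) (by linarith)
    have h2 : D.K * dst x y < D.K * (D.ρ / 2) := mul_lt_mul_of_pos_left (by linarith) D.K_pos
    have h3 := D.Kρ
    have h4 := (abs_le.1 h1).2
    refine ⟨v, ?_, ?_⟩
    · change 1 / 4 < x.f v
      linarith
    · change 1 / 4 < y.f v
      linarith
  one v x hx := by rw [ctr_eq (clSt_of_mem hx) zero_le_one le_rfl, mix_one]
  zero v x hx y hy := by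
    rw [ctr_eq (clSt_of_mem hx) le_rfl zero_le_one, ctr_eq (clSt_of_mem hy) le_rfl zero_le_one,
      mix_zero, mix_zero]
  lip v x hx y hy hxy t h0 h1 := by
    have hx' : 1 / 4 < x.f v := hx
    rw [Helper63.GT.dist_def] at hxy ⊢
    have h2 := chart_eq (v := v) (p := x) (q := y) (by linarith) (by linarith)
    have h3 : dist (cht v (ctr D v t x)) (cht v (ctr D v t y)) = t * dst x y := by
      rw [cht_ctr hx h0 h1, cht_ctr hy h0 h1, dist_smul, h2]
    have h4 : t * dst x y ≤ dst x y := by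
      have := dst_nonneg x y
      nlinarith
    have h5 := ctr_mem hx h0 h1
    have h6 := ctr_mem hy h0 h1
    rw [chart_eq' (v := v) (by linarith) (clSt_of_ne (by linarith)) (by rw [h3]; linarith), h3]
    linarith
  step v x hx s t h0 h1 h2 := by
    rw [ctr_eq (clSt_of_mem hx) h0 (h1.trans h2), ctr_eq (clSt_of_mem hx) (h0.trans h1) h2]
    refine (mix_dist _ _ _ _ _).trans ?_
    rw [abs_sub_comm s t, abs_of_nonneg (sub_nonneg.2 h1)]
  inter u v x hu hv := by
    by_contra hcon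
    push Not at hcon
    have hv' : 1 / 4 < x.f v := hv
    have := (clSt_of_mem hu).zero (Ne.symm hcon.1) hcon.2
    linarith
  conn u v h x hx y hy := by
    have key : ∀ x ∈ St D u ∩ St D v,
        ReflTransGen (fun a b => dist a b < δ / 2 ∧ a ∈ St D u ∩ St D v ∧ b ∈ St D u ∩ St D v)
          x (mid h) := fun x hx => by
      have h1 : 1 / 4 < x.f u := hx.1
      have h2 : 1 / 4 < x.f v := hx.2
      have hc : Com x (mid h) := com_mid h (by linarith) (by linarith)
      exact mix_chain hc (fun t h0 h1 => mem_mix_mid h hx.1 hx.2 hc t h0 h1) (by linarith)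
    refine (key x hx).trans ?_
    have hsymm : ∀ {a b : Rz D},
        ReflTransGen (fun a b => dist a b < δ / 2 ∧ a ∈ St D u ∩ St D v ∧ b ∈ St D u ∩ St D v)
          a b →
        ReflTransGen (fun a b => dist a b < δ / 2 ∧ a ∈ St D u ∩ St D v ∧ b ∈ St D u ∩ St D v)
          b a := fun hab => by
      induction hab with
      | refl => exact ReflTransGen.refl
      | tail _ hbc ih => exact ReflTransGen.head ⟨by rw [dist_comm]; exact hbc.1, hbc.2.2, hbc.2.1⟩ ih
    exact hsymm (key y hy)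
  nonempty v := ⟨vx D v, by
    change 1 / 4 < (vx D v).f v
    rw [vx_self]
    norm_num⟩
  nonempty₂ u v h := ⟨mid h, by
    change 1 / 4 < (mid h).f u
    rw [mid_left]
    norm_num, by
    change 1 / 4 < (mid h).f v
    rw [mid_right]
    norm_num⟩
  nonempty₃ u v w h := by
    classical
    have e1 := D.ne (D.U.tri_adj _ _ _ h)
    have e2 := D.ne (tri_adj2 h)
    have e3 := D.ne (tri_adj3 h)
    refine ⟨bar h, ⟨?_, ?_⟩, ?_⟩
    · change 1 / 4 < (if u = u then (1 / 3 : ℝ) else if u = v then 1 / 3 else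
        if u = w then 1 / 3 else 0)
      rw [if_pos rfl]
      norm_num
    · change 1 / 4 < (if v = u then (1 / 3 : ℝ) else if v = v then 1 / 3 else
        if v = w then 1 / 3 else 0)
      rw [if_neg e1.symm, if_pos rfl]
      norm_num
    · change 1 / 4 < (if w = u then (1 / 3 : ℝ) else if w = v then 1 / 3 else
        if w = w then 1 / 3 else 0)
      rw [if_neg e2.symm, if_neg e3.symm, if_pos rfl]
      norm_num

/-- **The realization of a simply connected complex is simply connected at small scales.** -/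
theorem rz_scAt (D : PE V) (hU : D.U.SimplyConn) {ε δ : ℝ} (hP : LocCat (Rz D) ε) (hδ : 0 < δ)
    (hδε : δ ≤ ε) (hδρ : δ ≤ D.ρ) : ScAt (Rz D) δ :=
  (stars D hδ hδρ).scAt hU hP hδ hδε

end Pool.Agent.Helper50.GT
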