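import Pool.Agent.Helper50.GT.Graph

/-!
# Insertion of a vertex in an edge of a weighted graph
-/

set_option autoImplicit false

namespace Pool.Agent.Helper50.GT

open SimpleGraph

section

variable {V : Type*} {Γ : SimpleGraph V} {w : V → V → ℝ} {B : ℝ}

/-- The walk along a sequence. -/
def walkOf (f : ℕ → V) (h : ∀ i, Γ.Adj (f i) (f (i + 1))) : ∀ n, Γ.Walk (f 0) (f n)
  | 0 => .nil
  | n + 1 => (walkOf f h n).concat (h n)

theorem walkOf_length (f : ℕ → V) (h : ∀ i, Γ.Adj (f i) (f (i + 1))) (n : ℕ) :
    (walkOf f h n).length = n := by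
  induction n with
  | zero => rfl
  | succ n ih => rw [walkOf, Walk.length_concat, ih]

theorem walkOf_support (f : ℕ → V) (h : ∀ i, Γ.Adj (f i) (f (i + 1))) (n : ℕ) :
    (walkOf f h n).support = (List.range (n + 1)).map f := by
  induction n with
  | zero => rfl
  | succ n ih => rw [walkOf, Walk.support_concat, ih, List.range_succ (n := n + 1)]; simp

theorem walkOf_wt (f : ℕ → V) (h : ∀ i, Γ.Adj (f i) (f (i + 1))) (n : ℕ) :
    wt w (walkOf f h n) = ∑ i ∈ Finset.range n, w (f i) (f (i + 1)) := by
  induction n with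
  | zero => rfl
  | succ n ih => rw [walkOf, wt_concat, ih, Finset.sum_range_succ]

theorem wt_copy {a b a' b' : V} (p : Γ.Walk a b) (ha : a = a') (hb : b = b') :
    wt w (p.copy ha hb) = wt w p := by subst ha hb; rfl

/-- It suffices to consider cycles. -/
theorem Circ.of_cycle (hs : ∀ a b, w a b = w b a) (hp : ∀ a b, Γ.Adj a b → 0 < w a b)
    (hc : ∀ (a : V) (c : Γ.Walk a a), c.IsCycle → B ≤ wt w c) : Circ Γ w B := by
  refine ⟨hs, hp, fun k u hu hadj => ?_⟩
  set f : ℕ → V := fun i => u (i : ZMod (k + 3)) with hf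
  have hadj' : ∀ i, Γ.Adj (f i) (f (i + 1)) := fun i => by
    have := hadj (i : ZMod (k + 3))
    rw [hf]
    simpa using this
  have hf0 : f (k + 3) = f 0 := by
    rw [hf]
    have : ((k + 3 : ℕ) : ZMod (k + 3)) = 0 := ZMod.natCast_self _
    simp only [this, Nat.cast_zero]
  have hinj : ∀ i j, 1 ≤ i → i ≤ k + 3 → 1 ≤ j → j ≤ k + 3 → f i = f j → i = j := by
    intro i j h1 h2 h3 h4 hij
    have h5 : (i : ZMod (k + 3)) = (j : ZMod (k + 3)) := hu hij
    rw [ZMod.natCast_eq_natCast_iff'] at h5
    rcases lt_or_eq_of_le h2 with h6 | h6 <;> rcases lt_or_eq_of_le h4 with h7 | h7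
    · rwa [Nat.mod_eq_of_lt h6, Nat.mod_eq_of_lt h7] at h5
    · rw [Nat.mod_eq_of_lt h6, h7, Nat.mod_self] at h5; omega
    · rw [Nat.mod_eq_of_lt h7, h6, Nat.mod_self] at h5; omega
    · omega
  have hcyc : ((walkOf f hadj' (k + 3)).copy rfl hf0).IsCycle := by
    rw [Walk.isCycle_iff_isPath_tail_and_le_length]
    refine ⟨?_, by rw [Walk.length_copy, walkOf_length]; omega⟩
    rw [Walk.isPath_def]
    have hnn : ¬ ((walkOf f hadj' (k + 3)).copy rfl hf0).Nil := by
      rw [Walk.not_nil_iff_lt_length, Walk.length_copy, walkOf_length]; omega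
    rw [Walk.support_tail_of_not_nil _ hnn, Walk.support_copy, walkOf_support]
    rw [List.range_succ_eq_map, List.map_cons, List.tail_cons, List.map_map]
    refine List.Nodup.map_on ?_ List.nodup_range
    intro i hi j hj hij
    rw [List.mem_range] at hi hj
    have := hinj (i + 1) (j + 1) (by omega) (by omega) (by omega) (by omega) hij
    omega
  have := hc _ _ hcyc
  rw [wt_copy, walkOf_wt] at this
  refine this.trans (le_of_eq ?_)
  rw [← Fin.sum_univ_eq_sum_range (fun i => w (f i) (f (i + 1))) (k + 3)]
  refine Finset.sum_congr rfl fun i _ => ?_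
  have h1 : ((i.val : ℕ) : ZMod (k + 3)) = i := ZMod.natCast_zmod_val (n := k + 3) i
  rw [hf]
  simp only [Nat.cast_add, Nat.cast_one]
  rw [h1]

end

end Pool.Agent.Helper50.GT

namespace Pool.Agent.Helper26.GT

open Pool.Agent.Helper50.GT SimpleGraph

variable {A : Type} (G : SimpleGraph A) (w : A → A → ℝ) (a b : A) (s : ℝ)

/-- A new vertex `none` in the middle of the edge `a`, `b`. -/
def ins : SimpleGraph (Option A) where
  Adj
    | none, none => False
    | none, some c => c = a ∨ c = b
    | some c, none => c = a ∨ c = b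
    | some c, some d => G.Adj c d ∧ ¬ (c = a ∧ d = b) ∧ ¬ (c = b ∧ d = a)
  symm := ⟨by
    rintro (_ | c) (_ | d) h
    · exact h
    · exact h
    · exact h
    · exact ⟨h.1.symm, fun h' => h.2.2 ⟨h'.2, h'.1⟩, fun h' => h.2.1 ⟨h'.2, h'.1⟩⟩⟩
  loopless := ⟨by
    rintro (_ | c) h
    · exact h
    · exact h.1.ne rfl⟩

open Classical in
/-- The new vertex has distance `s` from `a`. -/
noncomputable def insw : Option A → Option A → ℝ
  | none, none => 0
  | none, some c => if c = a then s else w a b - s
  | some c, none => if c = a then s else w a b - s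
  | some c, some d => w c d

variable {G w a b s}

/-- Walks which avoid the new vertex. -/
theorem ins_down {x y : Option A} (p : (ins G a b).Walk x y) (hp : none ∉ p.support) :
    ∀ x' y', x = some x' → y = some y' → ∃ q : G.Walk x' y', p.support = q.support.map some ∧
      wt (insw w a b s) p = wt w q ∧ s(a, b) ∉ q.edges := by
  induction p with
  | nil =>
    rintro x' y' rfl h
    cases h
    exact ⟨Walk.nil, by simp, by simp, by simp⟩
  | @cons x v y h p ih =>
    rintro x' y' rfl rfl
    rw [Walk.support_cons] at hp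
    have hv : ∃ v', v = some v' := by
      cases v with
      | none => exact absurd (List.mem_cons_of_mem _ p.start_mem_support) hp
      | some v' => exact ⟨v', rfl⟩
    obtain ⟨v', rfl⟩ := hv
    obtain ⟨q, h1, h2, h3⟩ := ih (fun hn => hp (List.mem_cons_of_mem _ hn)) v' y' rfl rfl
    have h' : G.Adj x' v' ∧ ¬ (x' = a ∧ v' = b) ∧ ¬ (x' = b ∧ v' = a) := h
    refine ⟨Walk.cons h'.1 q, ?_, ?_, ?_⟩
    · rw [Walk.support_cons, Walk.support_cons, h1, List.map_cons]
    · rw [wt_cons, wt_cons, h2]
      rfl
    · rw [Walk.edges_cons, List.mem_cons, not_or]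
      refine ⟨fun he => ?_, h3⟩
      rw [Sym2.eq_iff] at he
      rcases he with ⟨e1, e2⟩ | ⟨e1, e2⟩
      · exact h'.2.1 ⟨e1.symm, e2.symm⟩
      · exact h'.2.2 ⟨e2.symm, e1.symm⟩

theorem ins_circ {B : ℝ} (h : Circ G w B) (hab : G.Adj a b) (h0 : 0 < s) (h1 : s < w a b) :
    Circ (ins G a b) (insw w a b s) B := by
  classical
  have hsymm : ∀ x y, insw w a b s x y = insw w a b s y x := by
    rintro (_ | c) (_ | d)
    · rfl
    · rfl
    · rfl
    · exact h.symm c d
  have hpos : ∀ x y, (ins G a b).Adj x y → 0 < insw w a b s x y := by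
    rintro (_ | c) (_ | d) hxy
    · exact absurd hxy (by simp)
    · simp only [insw]; split_ifs <;> linarith
    · simp only [insw]; split_ifs <;> linarith
    · exact h.pos c d hxy.1
  refine Circ.of_cycle hsymm hpos fun x c hc => ?_
  have hcl := hc.three_le_length
  by_cases hn : none ∈ c.support
  · -- rotate to the new vertex
    have key : ∀ c : (ins G a b).Walk none none, c.IsCycle → B ≤ wt (insw w a b s) c := by
      clear hn hcl hc c
      intro c hc
      have hcl := hc.three_le_length
      have hnn : ¬ c.Nil := hc.not_nil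
      obtain ⟨u, hu, p, rfl⟩ := Walk.not_nil_iff.1 hnn
      rw [Walk.cons_isCycle_iff] at hc
      rw [Walk.length_cons] at hcl
      have hpn : ¬ p.Nil := by rw [Walk.not_nil_iff_lt_length]; omega
      obtain ⟨v, q, hv, rfl⟩ : ∃ (v : Option A) (q : (ins G a b).Walk u v)
          (hv : (ins G a b).Adj v none), p = q.concat hv :=
        ⟨_, p.dropLast, p.adj_penultimate hpn, by rw [Walk.concat_dropLast]⟩
      rw [Walk.concat_isPath_iff] at hc
      obtain ⟨⟨hq, hqn⟩, hedge⟩ := hc
      obtain ⟨u', rfl⟩ : ∃ u', u = some u' := by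
        cases u with
        | none => exact absurd hu (by simp)
        | some u' => exact ⟨u', rfl⟩
      obtain ⟨v', rfl⟩ : ∃ v', v = some v' := by
        cases v with
        | none => exact absurd hv (by simp)
        | some v' => exact ⟨v', rfl⟩
      obtain ⟨r, hr1, hr2, hr3⟩ := ins_down (s := s) (w := w) q hqn u' v' rfl rfl
      have hrp : r.IsPath := by
        rw [Walk.isPath_def] at hq ⊢
        rw [hr1] at hq
        exact hq.of_map _
      have hu' : u' = a ∨ u' = b := hu
      have hv' : v' = a ∨ v' = b := hv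
      have huv : u' ≠ v' := by
        rintro rfl
        apply hedge
        rw [Walk.edges_concat]
        simp [Sym2.eq_swap]
      rw [wt_cons, wt_concat, hr2]
      rcases hu' with rfl | rfl <;> rcases hv' with rfl | rfl
      · exact absurd rfl huv
      · have hcyc : (Walk.cons hab.symm r).IsCycle := by
          rw [Walk.cons_isCycle_iff]
          exact ⟨hrp, by rwa [Sym2.eq_swap]⟩
        have := h.cycle hcyc
        rw [wt_cons, h.symm] at this
        simp only [insw, if_pos, if_neg huv.symm]
        linarith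
      · have hcyc : (Walk.cons hab r).IsCycle := by
          rw [Walk.cons_isCycle_iff]
          exact ⟨hrp, hr3⟩
        have := h.cycle hcyc
        rw [wt_cons] at this
        simp only [insw, if_pos, if_neg huv]
        linarith
      · exact absurd rfl huv
    have h2 := key (c.rotate none hn) (hc.rotate hn)
    have h3 : wt (insw w a b s) (c.rotate none hn) = wt (insw w a b s) c := by
      rw [Walk.rotate, wt_append, add_comm, ← wt_append, Walk.take_spec]
    rwa [h3] at h2
  · obtain ⟨x', rfl⟩ : ∃ x', x = some x' := by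
      cases x with
      | none => exact absurd c.start_mem_support hn
      | some x' => exact ⟨x', rfl⟩
    obtain ⟨r, hr1, hr2, hr3⟩ := ins_down (s := s) (w := w) c hn x' x' rfl rfl
    rw [hr2]
    apply h.cycle
    have hlen : r.length = c.length := by
      have h4 := congrArg List.length hr1
      rw [List.length_map, Walk.length_support, Walk.length_support] at h4
      omega
    rw [Walk.isCycle_iff_isPath_tail_and_le_length] at hc ⊢
    refine ⟨?_, by omega⟩
    have hnn : ¬ r.Nil := by rw [Walk.not_nil_iff_lt_length]; omega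
    have hnc : ¬ c.Nil := by rw [Walk.not_nil_iff_lt_length]; omega
    have h5 := hc.1
    rw [Walk.isPath_def, Walk.support_tail_of_not_nil _ hnc, hr1, ← List.map_tail] at h5
    rw [Walk.isPath_def, Walk.support_tail_of_not_nil _ hnn]
    exact h5.of_map _

end Pool.Agent.Helper26.GT
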