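import Pool.Agent.Helper50.GT.Ins
import Pool.Agent.Helper50.GT.Leaf
import Pool.Agent.Helper13.GT.GeoU

/-!
# The free edge theorem from a gradient
-/

set_option autoImplicit false

namespace Pool.Agent.Helper50.GT

open SimpleGraph Pool.Agent.Helper26.GT Pool.Agent.Helper3.FJ Pool.Agent.Helper3.FJ.Cpx
  Pool.Agent.Helper13.GT

/-! ## Subdivided edges -/

section ins

variable {A : Type} {G : SimpleGraph A} {w : A → A → ℝ} {a b : A} {s : ℝ}

theorem ins_up (hs : ∀ x y, w x y = w y x) (hab : G.Adj a b) {x y : A} (p : G.Walk x y) :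
    ∃ q : (ins G a b).Walk (some x) (some y), wt (insw w a b s) q = wt w p := by
  induction p with
  | nil => exact ⟨Walk.nil, rfl⟩
  | @cons x v y h p ih =>
    obtain ⟨q, hq⟩ := ih
    have hne : b ≠ a := hab.ne'
    by_cases h1 : x = a ∧ v = b
    · obtain ⟨rfl, rfl⟩ := h1
      have e1 : (ins G x v).Adj (some x) none := Or.inl rfl
      have e2 : (ins G x v).Adj none (some v) := Or.inr rfl
      refine ⟨Walk.cons e1 (Walk.cons e2 q), ?_⟩
      rw [wt_cons, wt_cons, wt_cons, hq]
      simp only [insw, if_pos, if_neg hne]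
      ring
    · by_cases h2 : x = b ∧ v = a
      · obtain ⟨rfl, rfl⟩ := h2
        have e1 : (ins G v x).Adj (some x) none := Or.inr rfl
        have e2 : (ins G v x).Adj none (some v) := Or.inl rfl
        refine ⟨Walk.cons e1 (Walk.cons e2 q), ?_⟩
        rw [wt_cons, wt_cons, wt_cons, hq, hs x v]
        simp only [insw, if_pos, if_neg hne]
        ring
      · have e1 : (ins G a b).Adj (some x) (some v) := ⟨h, h1, h2⟩
        refine ⟨Walk.cons e1 q, ?_⟩
        rw [wt_cons, wt_cons, hq]
        rfl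

theorem ins_path_down (hs : ∀ x y, w x y = w y x) (hab : G.Adj a b) {x y : A}
    (p : (ins G a b).Walk (some x) (some y)) (hp : p.IsPath) :
    ∃ q : G.Walk x y, q.IsPath ∧ wt w q = wt (insw w a b s) p ∧
      (∀ c, some c ∈ p.support → c ∈ q.support) ∧
      (none ∈ p.support → a ∈ q.support ∧ b ∈ q.support) := by
  classical
  have hne : b ≠ a := hab.ne'
  by_cases hn : none ∈ p.support
  · -- split at the new vertex
    obtain ⟨P, Q, rfl⟩ := Walk.mem_support_iff_exists_append.1 hn
    have hPn : ¬ P.Nil := fun h => by cases h.eq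
    have hQn : ¬ Q.Nil := fun h => by cases h.eq
    obtain ⟨u, P', hu, rfl⟩ : ∃ (u : Option A) (P' : (ins G a b).Walk (some x) u)
        (hu : (ins G a b).Adj u none), P = P'.concat hu :=
      ⟨_, P.dropLast, P.adj_penultimate hPn, by rw [Walk.concat_dropLast]⟩
    obtain ⟨v, hv, Q', rfl⟩ := Walk.not_nil_iff.1 hQn
    obtain ⟨u', rfl⟩ : ∃ u', u = some u' := by
      cases u with
      | none => exact absurd hu (by simp)
      | some u' => exact ⟨u', rfl⟩
    obtain ⟨v', rfl⟩ : ∃ v', v = some v' := by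
      cases v with
      | none => exact absurd hv (by simp)
      | some v' => exact ⟨v', rfl⟩
    have hu' : u' = a ∨ u' = b := hu
    have hv' : v' = a ∨ v' = b := hv
    have hsupp : ((P'.concat hu).append (Walk.cons hv Q')).support =
        P'.support ++ none :: Q'.support := by
      rw [Walk.support_append, Walk.support_concat, Walk.support_cons, List.tail_cons]
      simp
    have hnd : (P'.support ++ none :: Q'.support).Nodup := by
      rw [← hsupp]; exact hp.support_nodup
    have hnd' := List.nodup_append.1 hnd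
    have hnP : none ∉ P'.support := fun hm => hnd'.2.2 _ hm _ (by simp) rfl
    have hnQ : none ∉ Q'.support := (List.nodup_cons.1 hnd'.2.1).1
    obtain ⟨r1, h1, h2, h3⟩ := ins_down (s := s) (w := w) P' hnP x u' rfl rfl
    obtain ⟨r2, h4, h5, h6⟩ := ins_down (s := s) (w := w) Q' hnQ v' y rfl rfl
    have huv : u' ≠ v' := by
      rintro rfl
      exact hnd'.2.2 _ P'.end_mem_support _
        (List.mem_cons_of_mem _ Q'.start_mem_support) rfl
    have hadj : G.Adj u' v' ∧ w u' v' = w a b ∧ insw w a b s (some u') none +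
        insw w a b s none (some v') = w a b := by
      rcases hu' with rfl | rfl <;> rcases hv' with rfl | rfl
      · exact absurd rfl huv
      · exact ⟨hab, rfl, by simp only [insw, if_pos, if_neg hne]; ring⟩
      · exact ⟨hab.symm, hs _ _, by simp only [insw, if_pos, if_neg hne]; ring⟩
      · exact absurd rfl huv
    have hsq : (r1.append (Walk.cons hadj.1 r2)).support = r1.support ++ r2.support := by
      rw [Walk.support_append, Walk.support_cons, List.tail_cons]
    refine ⟨r1.append (Walk.cons hadj.1 r2), ?_, ?_, ?_, ?_⟩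
    · rw [Walk.isPath_def, hsq]
      have h7 : (List.map some (r1.support ++ r2.support)).Nodup := by
        rw [List.map_append, ← h1, ← h4]
        refine hnd.sublist ?_
        exact List.Sublist.append_left (List.sublist_cons_self _ _) _
      exact h7.of_map _
    · rw [wt_append, wt_append, wt_cons, wt_cons, wt_concat, h2, h5, hadj.2.1, ← hadj.2.2]
      ring
    · intro c hc
      rw [hsupp, h1, h4] at hc
      rw [hsq]
      simpa using hc
    · intro _
      rw [hsq]
      have k1 : u' ∈ r1.support ++ r2.support :=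
        List.mem_append_left _ r1.end_mem_support
      have k2 : v' ∈ r1.support ++ r2.support :=
        List.mem_append_right _ r2.start_mem_support
      rcases hu' with rfl | rfl <;> rcases hv' with rfl | rfl
      · exact absurd rfl huv
      · exact ⟨k1, k2⟩
      · exact ⟨k2, k1⟩
      · exact absurd rfl huv
  · obtain ⟨q, h1, h2, h3⟩ := ins_down (s := s) (w := w) p hn x y rfl rfl
    refine ⟨q, ?_, h2.symm, fun c hc => ?_, fun h => absurd h hn⟩
    · rw [Walk.isPath_def] at hp ⊢
      rw [h1] at hp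
      exact hp.of_map _
    · rw [h1] at hc
      simpa using hc

/-- The free edge in a link for a point `n` in the interior of an edge. -/
theorem good_leaf_ins (h : Circ G w (2 * Real.pi)) (hw : ∀ x y, G.Adj x y → w x y < Real.pi)
    (hab : G.Adj a b) (h0 : 0 < s) (h1 : s < w a b)
    (K : A → A → Prop) (hK : ∀ a b, K a b → G.Adj a b) (hs : ∀ a b, K a b → K b a)
    (hfin : {p : A × A | K p.1 p.2}.Finite) (hne : ∃ a b, K a b)
    (hball : ∀ c d, K c d → (∃ p : G.Walk a c, s + wt w p < Real.pi / 2) ∨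
      ∃ p : G.Walk b c, w a b - s + wt w p < Real.pi / 2) (F : A → Prop)
    (hF : ∀ a b (p : G.Walk a b), p.IsPath → wt w p < Real.pi → F a → F b →
      ∀ c ∈ p.support, F c) :
    ∃ a b, K a b ∧ (∀ c, K a c → c = b) ∧ (F a → F b) := by
  classical
  have hba : b ≠ a := hab.ne'
  have hwab := hw a b hab
  let K' : Option A → Option A → Prop
    | none, none => False
    | none, some c => K a b ∧ (c = a ∨ c = b)
    | some c, none => K a b ∧ (c = a ∨ c = b)
    | some c, some d => K c d ∧ ¬ (c = a ∧ d = b) ∧ ¬ (c = b ∧ d = a)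
  let F' : Option A → Prop
    | none => F a ∧ F b
    | some c => F c
  have hKs : ∀ x y, K' x y → K' y x := by
    rintro (_ | c) (_ | d) hk
    · exact hk
    · exact hk
    · exact hk
    · exact ⟨hs _ _ hk.1, fun h' => hk.2.2 ⟨h'.2, h'.1⟩, fun h' => hk.2.1 ⟨h'.2, h'.1⟩⟩
  have hvert : ∀ c y, K' (some c) y → ∃ d, K c d := by
    rintro c (_ | d) hk
    · rcases hk.2 with rfl | rfl
      · exact ⟨b, hk.1⟩
      · exact ⟨a, hs _ _ hk.1⟩
    · exact ⟨d, hk.1⟩
  have hdown : ∀ c (p : (ins G a b).Walk none (some c)), p.IsPath →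
      wt (insw w a b s) p < Real.pi → F a → F b → F c →
      ∀ d ∈ p.support, F' d := by
    intro c p hp hpw hFa hFb hFc d hd
    have hpn : ¬ p.Nil := fun h => by cases h.eq
    obtain ⟨v, hv, q, rfl⟩ := Walk.not_nil_iff.1 hpn
    rw [Walk.cons_isPath_iff] at hp
    obtain ⟨v', rfl⟩ : ∃ v', v = some v' := by
      cases v with
      | none => exact absurd hv (by simp)
      | some v' => exact ⟨v', rfl⟩
    obtain ⟨r, hr1, hr2, -⟩ := ins_down (s := s) (w := w) q hp.2 v' c rfl rfl
    have hrp : r.IsPath := by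
      rw [Walk.isPath_def]
      have := hp.1
      rw [Walk.isPath_def, hr1] at this
      exact this.of_map _
    have hv' : v' = a ∨ v' = b := hv
    have hFv : F v' := by rcases hv' with rfl | rfl <;> assumption
    have hpos : 0 < insw w a b s none (some v') := by
      simp only [insw]; split_ifs <;> linarith
    rw [wt_cons, hr2] at hpw
    have hall := hF v' c r hrp (by linarith) hFv hFc
    rw [Walk.support_cons, hr1] at hd
    rcases List.mem_cons.1 hd with rfl | hd
    · exact ⟨hFa, hFb⟩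
    · obtain ⟨e, he, rfl⟩ := List.mem_map.1 hd
      exact hall e he
  obtain ⟨x, y, h3, h4, h5⟩ := good_leaf (A := Option A) (G := ins G a b) (w := insw w a b s)
    (ins_circ h hab h0 h1) (by
      rintro (_ | c) (_ | d) hxy
      · exact absurd hxy (by simp)
      · simp only [insw]; split_ifs <;> linarith
      · simp only [insw]; split_ifs <;> linarith
      · exact hw c d hxy.1) none K' (by
      rintro (_ | c) (_ | d) hk
      · exact hk
      · exact hk.2
      · exact hk.2
      · exact ⟨hK _ _ hk.1, hk.2⟩) hKs (by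
      refine Set.Finite.subset (s := (fun p : A × A => (some p.1, some p.2)) '' {p | K p.1 p.2} ∪
        {(none, some a), (none, some b), (some a, none), (some b, none)})
        ((hfin.image _).union (by simp)) ?_
      rintro ⟨_ | c, _ | d⟩ hk
      · exact absurd hk (by simp [K'])
      · right
        rcases hk.2 with rfl | rfl <;> simp
      · right
        rcases hk.2 with rfl | rfl <;> simp
      · left
        exact ⟨(c, d), hk.1, rfl⟩) (by
      obtain ⟨c, d, hcd⟩ := hne
      by_cases h2 : (c = a ∧ d = b) ∨ (c = b ∧ d = a)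
      · refine ⟨none, some a, ?_, Or.inl rfl⟩
        rcases h2 with ⟨rfl, rfl⟩ | ⟨rfl, rfl⟩
        · exact hcd
        · exact hs _ _ hcd
      · rw [not_or] at h2
        exact ⟨some c, some d, hcd, h2.1, h2.2⟩) (by
      rintro (_ | c) y hk
      · exact ⟨Walk.nil, by rw [wt_nil]; linarith [Real.pi_pos]⟩
      · obtain ⟨d, hd⟩ := hvert c y hk
        rcases hball c d hd with ⟨p, hp⟩ | ⟨p, hp⟩
        · obtain ⟨q, hq⟩ := ins_up (s := s) h.symm hab p
          refine ⟨Walk.cons (show (ins G a b).Adj none (some a) from Or.inl rfl) q, ?_⟩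
          rw [wt_cons, hq]
          simp only [insw, if_pos]
          exact hp
        · obtain ⟨q, hq⟩ := ins_up (s := s) h.symm hab p
          refine ⟨Walk.cons (show (ins G a b).Adj none (some b) from Or.inr rfl) q, ?_⟩
          rw [wt_cons, hq]
          simp only [insw, if_neg hba]
          exact hp) F' (by
      rintro (_ | c) (_ | d) p hp hpw hc hd x hx
      · rw [Walk.isPath_iff_eq_nil] at hp
        subst hp
        simp only [Walk.support_nil, List.mem_singleton] at hx
        rw [hx]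
        exact hc
      · exact hdown d p hp hpw hc.1 hc.2 hd x hx
      · refine hdown c p.reverse (by simpa using hp) ?_ hd.1 hd.2 hc x (by simpa using hx)
        rwa [wt_reverse (ins_circ h hab h0 h1).symm]
      · obtain ⟨q, hq, hqw, hq1, hq2⟩ := ins_path_down (s := s) h.symm hab p hp
        have hall := hF c d q hq (by rwa [hqw]) hc hd
        cases x with
        | none => exact ⟨hall a (hq2 hx).1, hall b (hq2 hx).2⟩
        | some e => exact hall e (hq1 e hx))
  cases x with
  | none =>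
    exfalso
    have hKab : K a b := by
      cases y with
      | none => exact absurd h3 (by simp [K'])
      | some d => exact h3.1
    have e1 := h4 (some a) ⟨hKab, Or.inl rfl⟩
    have e2 := h4 (some b) ⟨hKab, Or.inr rfl⟩
    rw [← e1] at e2
    exact hba (Option.some_injective _ e2)
  | some c =>
    cases y with
    | none =>
      obtain ⟨hKab, hc⟩ := h3
      have hc : c = a ∨ c = b := hc
      have huniq : ∀ c' d', (c' = a ∧ d' = b) ∨ (c' = b ∧ d' = a) → c = c' →
          (∀ d, K c d → d = d') := by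
        intro c' d' hcd hcc d hd
        by_contra hdd
        have : K' (some c) (some d) := by
          refine ⟨hd, ?_, ?_⟩
          · rintro ⟨r1, r2⟩
            rcases hcd with ⟨r3, r4⟩ | ⟨r3, r4⟩
            · exact hdd (r2.trans r4.symm)
            · exact hba (r3.symm.trans (hcc.symm.trans r1))
          · rintro ⟨r1, r2⟩
            rcases hcd with ⟨r3, r4⟩ | ⟨r3, r4⟩
            · exact hba (r1.symm.trans (hcc.trans r3))
            · exact hdd (r2.trans r4.symm)
        exact absurd (h4 (some d) this) (by simp)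
      rcases hc with rfl | rfl
      · exact ⟨c, b, hKab, huniq c b (Or.inl ⟨rfl, rfl⟩) rfl, fun hf => (h5 hf).2⟩
      · exact ⟨c, a, hs _ _ hKab, huniq c a (Or.inr ⟨rfl, rfl⟩) rfl, fun hf => (h5 hf).1⟩
    | some d =>
      refine ⟨c, d, h3.1, fun e he => ?_, h5⟩
      by_cases h6 : (c = a ∧ e = b) ∨ (c = b ∧ e = a)
      · exfalso
        have : K' (some c) none := by
          rcases h6 with ⟨rfl, rfl⟩ | ⟨rfl, rfl⟩
          · exact ⟨he, Or.inl rfl⟩
          · exact ⟨hs _ _ he, Or.inr rfl⟩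
        exact absurd (h4 none this) (by simp)
      · rw [not_or] at h6
        exact Option.some_injective _ (h4 (some e) ⟨he, h6.1, h6.2⟩)

end ins

/-! ## Angles and links -/

section ang

variable {W : Type} {U : Cpx W} {ℓ : W → W → ℝ}

/-- The link of a vertex. -/
def lk (U : Cpx W) (y : W) : SimpleGraph W where
  Adj a b := U.tri y a b
  symm := ⟨fun a b h => U.tri_rot _ _ _ (U.tri_flip _ _ _ h)⟩
  loopless := ⟨fun a h => U.adj_irrefl a (U.tri_adj _ _ _ (U.tri_rot _ _ _ h))⟩

theorem ang_symm (hs : ∀ u v, ℓ u v = ℓ v u) (v a b : W) : ang ℓ v a b = ang ℓ v b a := by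
  unfold ang
  rw [hs a b]
  congr 1
  ring

theorem ang_arg (hM : U.Metric ℓ) {v a b : W} (h : U.tri v a b) :
    -1 < (ℓ v a ^ 2 + ℓ v b ^ 2 - ℓ a b ^ 2) / (2 * ℓ v a * ℓ v b) ∧
      (ℓ v a ^ 2 + ℓ v b ^ 2 - ℓ a b ^ 2) / (2 * ℓ v a * ℓ v b) < 1 := by
  have hva : U.adj v a := U.tri_adj _ _ _ h
  have hab : U.adj a b := U.tri_adj _ _ _ (U.tri_rot _ _ _ h)
  have hvb : U.adj v b := U.adj_symm _ _ (U.tri_adj _ _ _ (U.tri_rot _ _ _ (U.tri_rot _ _ _ h)))
  have h1 := hM.pos _ _ hva
  have h2 := hM.pos _ _ hvb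
  have h3 := hM.pos _ _ hab
  have t1 : ℓ v b < ℓ v a + ℓ a b := hM.tri v a b h
  have t2 : ℓ a b < ℓ v a + ℓ v b := by
    have := hM.tri a v b (U.tri_flip _ _ _ h)
    rwa [hM.symm a v] at this
  have t3 : ℓ v a < ℓ v b + ℓ a b := by
    have := hM.tri v b a (U.tri_rot _ _ _ (U.tri_flip _ _ _ h))
    rwa [hM.symm b a] at this
  have hpos : 0 < 2 * ℓ v a * ℓ v b := by positivity
  constructor
  · rw [lt_div_iff₀ hpos]
    nlinarith
  · rw [div_lt_iff₀ hpos]
    nlinarith

theorem ang_pos (hM : U.Metric ℓ) {v a b : W} (h : U.tri v a b) : 0 < ang ℓ v a b :=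
  Real.arccos_pos.2 (ang_arg hM h).2

theorem ang_lt_pi (hM : U.Metric ℓ) {v a b : W} (h : U.tri v a b) : ang ℓ v a b < Real.pi := by
  have := (ang_arg hM h).1
  unfold ang
  rw [Real.arccos_lt_pi]
  exact this

theorem lk_circ (hM : U.Metric ℓ) (hL : U.LinkCond ℓ) (y : W) :
    Circ (lk U y) (ang ℓ y) (2 * Real.pi) :=
  ⟨ang_symm hM.symm y, fun _ _ h => ang_pos hM h, fun k u hu hadj => hL y k u hu hadj⟩

/-- The direction at `y` of a geodesic to the base point: it lies at the angle `s` from `a` in the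
triangle `y`, `a`, `b`, or `a = b` and `s = 0`; each neighbour of `y` at angle at least `π / 2` is
farther from the base point than `y`. -/
def DirOK (U : Cpx W) (ℓ : W → W → ℝ) (D : W → ℝ) (y : W) : Prop :=
  ∃ (a b : W) (s : ℝ), ((U.tri y a b ∧ 0 ≤ s ∧ s ≤ ang ℓ y a b) ∨ (a = b ∧ s = 0)) ∧
    ∀ c, U.adj y c → D y < D c ∨ (∃ p : (lk U y).Walk a c, s + wt (ang ℓ y) p < Real.pi / 2) ∨
      (U.tri y a b ∧ ∃ p : (lk U y).Walk b c, ang ℓ y a b - s + wt (ang ℓ y) p < Real.pi / 2)

/-- The free edge theorem from a gradient. -/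
theorem geoU_of_grad (hgrad : ∀ {W : Type} {U : Cpx W} {ℓ : W → W → ℝ}, U.Metric ℓ →
    U.LinkCond ℓ → Shapes U ℓ → U.SimplyConn → ∃ (u₀ : W) (D : W → ℝ),
      (∀ a, U.adj u₀ a → D u₀ < D a) ∧ ∀ y, y ≠ u₀ → DirOK U ℓ D y) : GeoU := by
  intro W U ℓ F hM hL hS hU hF K hfin hne hK hrot hflip
  obtain ⟨u₀, D, h0, hD⟩ := hgrad hM hL hS hU
  obtain ⟨t₀, ht₀⟩ := hne
  have hfinD : ((fun t : W × W × W => D t.1) '' K).Finite := hfin.image _
  obtain ⟨_, ⟨⟨⟨y, b₁, c₁⟩, hy, rfl⟩, hmax⟩⟩ := hfinD.exists_maximal ⟨_, t₀, ht₀, rfl⟩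
  have hmax' : ∀ a b c, (a, b, c) ∈ K → D a ≤ D y := fun a b c hT => by
    by_contra hlt
    push Not at hlt
    exact absurd (hmax ⟨(a, b, c), hT, rfl⟩ hlt.le) (not_le.2 hlt)
  have hsw : ∀ a b, (y, a, b) ∈ K → (y, b, a) ∈ K := fun a b h => hrot _ _ _ (hflip _ _ _ h)
  have hle : ∀ a b, (y, a, b) ∈ K → D a ≤ D y := fun a b h => hmax' a b y (hrot _ _ _ h)
  have hyu : y ≠ u₀ := by
    rintro rfl
    have h1 := h0 b₁ (U.tri_adj _ _ _ (hK _ _ _ hy))
    exact absurd (hle _ _ hy) (not_le.2 h1)
  obtain ⟨a, b, s, hs, hdir⟩ := hD y hyu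
  have hcirc := lk_circ hM hL y
  have hw : ∀ x z, (lk U y).Adj x z → ang ℓ y x z < Real.pi := fun x z h => ang_lt_pi hM h
  have hKf : {p : W × W | (y, p.1, p.2) ∈ K}.Finite := by
    refine (hfin.image fun t : W × W × W => (t.2.1, t.2.2)).subset ?_
    rintro ⟨p, q⟩ h
    exact ⟨_, h, rfl⟩
  have hFc : ∀ a b (p : (lk U y).Walk a b), p.IsPath → wt (ang ℓ y) p < Real.pi → F y a → F y b →
      ∀ c ∈ p.support, F y c := by
    intro a b p hp hpw hFa hFb c hc
    obtain ⟨i, rfl, hi⟩ := Walk.mem_support_iff_exists_getVert.1 hc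
    refine hF y p.length p.getVert (fun i hi => p.adj_getVert_succ hi) (fun i hi => ?_) ?_ ?_ ?_ i hi
    · exact NB.of_isPath hp i (by omega)
    · rwa [← wt_eq_sum]
    · rwa [Walk.getVert_zero]
    · rwa [Walk.getVert_length]
  have hdir' : ∀ c d, (y, c, d) ∈ K → (∃ p : (lk U y).Walk a c, s + wt (ang ℓ y) p < Real.pi / 2) ∨
      (U.tri y a b ∧ ∃ p : (lk U y).Walk b c, ang ℓ y a b - s + wt (ang ℓ y) p < Real.pi / 2) := by
    intro c d h
    rcases hdir c (U.tri_adj _ _ _ (hK _ _ _ h)) with h1 | h1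
    · exact absurd (hle _ _ h) (not_le.2 h1)
    · exact h1
  have hwtn : ∀ {x z : W} (p : (lk U y).Walk x z), 0 ≤ wt (ang ℓ y) p := fun p =>
    wt_nonneg (fun x z h => (ang_pos hM h).le) p
  -- the case where the direction is a vertex
  have hvx : ∀ n, (∀ c d, (y, c, d) ∈ K → ∃ p : (lk U y).Walk n c, wt (ang ℓ y) p < Real.pi / 2) →
      ∃ a b c, (a, b, c) ∈ K ∧ (∀ d, (a, b, d) ∈ K → d = c) ∧ (F a b → F a c) := by
    intro n hn
    obtain ⟨e, f, h1, h2, h3⟩ := good_leaf hcirc hw n (fun a b => (y, a, b) ∈ K)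
      (fun a b h => hK _ _ _ h) hsw hKf ⟨_, _, hy⟩ hn (F y) hFc
    exact ⟨y, e, f, h1, h2, h3⟩
  rcases hs with ⟨htri, hs0, hs1⟩ | ⟨rfl, rfl⟩
  · have hab := ang_pos hM htri
    rcases eq_or_lt_of_le hs0 with hs0' | hs0'
    · -- the direction is `a`
      refine hvx a fun c d h => ?_
      rcases hdir' c d h with ⟨p, hp⟩ | ⟨-, p, hp⟩
      · exact ⟨p, by linarith⟩
      · refine ⟨Walk.cons (show (lk U y).Adj a b from htri) p, ?_⟩
        rw [wt_cons]
        linarith
    · rcases eq_or_lt_of_le hs1 with hs1' | hs1'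
      · refine hvx b fun c d h => ?_
        rcases hdir' c d h with ⟨p, hp⟩ | ⟨-, p, hp⟩
        · refine ⟨Walk.cons ((show (lk U y).Adj a b from htri).symm) p, ?_⟩
          rw [wt_cons, hcirc.symm b a]
          linarith
        · exact ⟨p, by linarith⟩
      · obtain ⟨e, f, h1, h2, h3⟩ := good_leaf_ins hcirc hw htri hs0' hs1'
          (fun a b => (y, a, b) ∈ K) (fun a b h => hK _ _ _ h) hsw hKf ⟨_, _, hy⟩
          (fun c d h => by
            rcases hdir' c d h with h1 | ⟨-, h1⟩
            · exact Or.inl h1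
            · exact Or.inr h1) (F y) hFc
        exact ⟨y, e, f, h1, h2, h3⟩
  · refine hvx a fun c d h => ?_
    rcases hdir' c d h with ⟨p, hp⟩ | ⟨h1, -⟩
    · exact ⟨p, by linarith⟩
    · exact absurd (U.tri_adj _ _ _ (U.tri_rot _ _ _ h1)) (U.adj_irrefl a)

end ang

end Pool.Agent.Helper50.GT
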