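import Pool.Agent.Helper37.CH.LG
import Pool.Agent.Helper37.CH.Interp

/-!
# Spaces in which any two points are joined by exactly one local geodesic

The square of the distance (measured along the local geodesics) from a point is strongly convex, and
it increases in the directions at right angles to the direction of the point.
-/

set_option autoImplicit false

namespace Pool.Agent.Helper50.GT

open Set Pool.Agent.Helper37.CH

/-- The conclusion of the theorem of Cartan and Hadamard. -/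
structure GeoSp (P : Type) [MetricSpace P] (ε : ℝ) : Prop where
  cat : LocCat P ε
  ex : ∀ o p : P, ∃ (γ : ℝ → P) (L : ℝ), LGeo γ L ∧ γ 0 = o ∧ γ 1 = p
  uniq : ∀ (γ γ' : ℝ → P) (L L' : ℝ), LGeo γ L → LGeo γ' L' → γ 0 = γ' 0 → γ 1 = γ' 1 → γ = γ'
  near : ∀ (γ : ℝ → P) (L : ℝ), LGeo γ L → ∀ p', dist (γ 1) p' < ε / 16 →
    ∃ (γ' : ℝ → P) (L' : ℝ), LGeo γ' L' ∧ γ' 0 = γ 0 ∧ γ' 1 = p' ∧
      ∀ t ∈ Icc (0 : ℝ) 1, dist (γ t) (γ' t) < ε / 4

section quad

variable {P : Type} [MetricSpace P] {ε : ℝ}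

/-- The quadrilateral inequality. -/
theorem quad (h : LocCat P ε) {a b a' b' : P} (hab : dist a b < ε) (hab' : dist a' b' < ε)
    (haa : dist a a' < ε) (hbb : dist b b' < ε) (h1 : dist b a' < ε) (h2 : dist a b' < ε) :
    dist a b' ^ 2 + dist b a' ^ 2 ≤ dist a b ^ 2 + dist a' b' ^ 2 +
      2 * dist a a' * dist b b' := by
  rcases eq_or_lt_of_le (dist_nonneg (x := a) (y := a')) with hx | hx
  · have : a = a' := dist_eq_zero.1 hx.symm
    subst this
    rw [dist_self, dist_comm b a]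
    linarith
  rcases eq_or_lt_of_le (dist_nonneg (x := b) (y := b')) with hy | hy
  · have : b = b' := dist_eq_zero.1 hy.symm
    subst this
    rw [dist_self, dist_comm b a']
    linarith
  set x := dist a a' with hxd
  set y := dist b b' with hyd
  have hxy : 0 < x + y := by linarith
  set s := x / (x + y) with hs
  set t := y / (x + y) with ht
  have hs0 : 0 < s := div_pos hx hxy
  have ht0 : 0 < t := div_pos hy hxy
  have hst : s + t = 1 := by rw [hs, ht]; field_simp
  obtain ⟨n, hn1, hn2, hn3⟩ := h.geo b a' h1 t ht0.le (by linarith)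
  have e1 := hn3 a hab haa
  have e2 := hn3 b' (by rwa [dist_comm]) (by rwa [dist_comm])
  have e3 := dist_triangle a n b'
  rw [dist_comm n b'] at e3
  rw [dist_comm b' b, dist_comm b' a'] at e2
  set A := dist a b
  set B := dist a' b'
  set q := dist b a'
  set u := dist a n
  set v := dist b' n
  have hu : 0 ≤ u := dist_nonneg
  have hv : 0 ≤ v := dist_nonneg
  have h1t : 1 - t = s := by linarith
  rw [h1t] at e1 e2
  -- `(u + v)² ≤ u² / s + v² / t`
  have e4 : s * t * (u + v) ^ 2 ≤ t * u ^ 2 + s * v ^ 2 := by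
    have : t * u ^ 2 + s * v ^ 2 - s * t * (u + v) ^ 2 = (t * u - s * v) ^ 2 := by
      have : s = 1 - t := by linarith
      rw [this]; ring
    nlinarith [sq_nonneg (t * u - s * v)]
  have e5 : dist a b' ^ 2 ≤ (u + v) ^ 2 := by
    have := dist_nonneg (x := a) (y := b')
    exact pow_le_pow_left₀ this e3 2
  have hstp : 0 < s * t := mul_pos hs0 ht0
  have e6 : s * t * dist a b' ^ 2 ≤ t * (s * A ^ 2 + t * x ^ 2 - t * s * q ^ 2) +
      s * (s * y ^ 2 + t * B ^ 2 - t * s * q ^ 2) := by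
    have h3 := mul_le_mul_of_nonneg_left e5 hstp.le
    have h4 := mul_le_mul_of_nonneg_left e1 ht0.le
    have h5 := mul_le_mul_of_nonneg_left e2 hs0.le
    linarith
  have e7 : t * x = s * y := by rw [hs, ht]; field_simp
  have e8 : t * (s * A ^ 2 + t * x ^ 2 - t * s * q ^ 2) +
      s * (s * y ^ 2 + t * B ^ 2 - t * s * q ^ 2) =
      s * t * (A ^ 2 + B ^ 2 + 2 * x * y - q ^ 2) := by
    have h6 : t ^ 2 * x ^ 2 = s * t * (x * y) := by
      calc t ^ 2 * x ^ 2 = (t * x) * (t * x) := by ring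
        _ = (t * x) * (s * y) := by rw [e7]
        _ = _ := by ring
    have h7 : s ^ 2 * y ^ 2 = s * t * (x * y) := by
      calc s ^ 2 * y ^ 2 = (s * y) * (s * y) := by ring
        _ = (t * x) * (s * y) := by rw [e7]
        _ = _ := by ring
    have h8 : t ^ 2 * s * q ^ 2 + s ^ 2 * t * q ^ 2 = s * t * q ^ 2 := by
      calc _ = s * t * q ^ 2 * (s + t) := by ring
        _ = _ := by rw [hst]; ring
    linear_combination h6 + h7 - h8
  rw [e8] at e6
  have := le_of_mul_le_mul_left e6 hstp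
  linarith

/-- The distance of the midpoints of two opposite sides. -/
theorem quad_mid (h : LocCat P ε) {a b a' b' m n : P} (hm : Mid a m a') (hn : Mid b n b')
    (hab : dist a b < ε / 4) (hab' : dist a' b' < ε / 4) (haa : dist a a' < ε / 4)
    (hbb : dist b b' < ε / 4) :
    dist m n ^ 2 ≤ dist a b ^ 2 / 2 + dist a' b' ^ 2 / 2 - (dist a a' - dist b b') ^ 2 / 4 := by
  have hε := h.pos
  have k1 := dist_triangle b a a'
  rw [dist_comm b a] at k1
  have k2 := dist_triangle a b b'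
  have k3 : dist m a ≤ dist a a' := by
    rw [dist_comm, hm.1]
    linarith [dist_nonneg (x := a) (y := a')]
  have k4 := dist_triangle m a b
  have k5 := dist_triangle m b b'
  have c1 := h.cn (p := m) hn (by linarith) (by linarith) (by linarith)
  have c2 := h.cn (p := b) hm (by linarith) (by rw [dist_comm]; linarith) (by linarith)
  have c3 := h.cn (p := b') hm (by linarith) (by rw [dist_comm]; linarith)
    (by rw [dist_comm]; linarith)
  have c4 := quad h (a := a) (b := b) (a' := a') (b' := b') (by linarith) (by linarith)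
    (by linarith) (by linarith) (by linarith) (by linarith)
  rw [dist_comm b m] at c2
  rw [dist_comm b' m, dist_comm b' a, dist_comm b' a'] at c3
  rw [dist_comm b a] at c2
  nlinarith

end quad

section geo

variable {P : Type} [MetricSpace P] {ε : ℝ} {γ γ' : ℝ → P} {L L' : ℝ}

theorem LGeo.rev (h : LGeo γ L) : LGeo (fun t => γ (1 - t)) L := by
  refine ⟨h.nonneg, fun t => ?_, ?_⟩
  · rw [h.out (1 - t), h.out (1 - max 0 (min 1 t))]
    congr 1
    rcases le_total t 0 with h1 | h1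
    · have e1 : min (1 : ℝ) t = t := min_eq_right (by linarith)
      rw [e1, max_eq_left h1, sub_zero, min_self, max_eq_right zero_le_one,
        min_eq_left (by linarith : (1 : ℝ) ≤ 1 - t), max_eq_right zero_le_one]
    · rcases le_total t 1 with h2 | h2
      · have e1 : min (1 : ℝ) t = t := min_eq_right h2
        rw [e1, max_eq_right h1]
      · have e1 : min (1 : ℝ) t = 1 := min_eq_left h2
        rw [e1, max_eq_right zero_le_one, sub_self, min_eq_right (by linarith : 1 - t ≤ 1),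
          max_eq_left (by linarith : 1 - t ≤ 0), min_eq_right zero_le_one, max_self]
  · obtain ⟨κ, hκ, hl⟩ := h.loc
    refine ⟨κ, hκ, fun s t h1 h2 h3 h4 => ?_⟩
    rw [dist_comm, hl (1 - t) (1 - s) (by linarith) (by linarith) (by linarith) (by linarith)]
    ring

/-- A part of a local geodesic. -/
theorem LGeo.part (h : LGeo γ L) {a b : ℝ} (ha : 0 ≤ a) (hab : a ≤ b) (hb : b ≤ 1) :
    LGeo (fun t => γ (a + (b - a) * max 0 (min 1 t))) ((b - a) * L) := by
  refine ⟨mul_nonneg (by linarith) h.nonneg, fun t => ?_, ?_⟩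
  · congr 3
    rcases le_total t 0 with h1 | h1
    · have e1 : min (1 : ℝ) t = t := min_eq_right (by linarith)
      rw [e1, max_eq_left h1]; simp
    · rcases le_total t 1 with h2 | h2
      · have e1 : min (1 : ℝ) t = t := min_eq_right h2
        rw [e1, max_eq_right h1, e1, max_eq_right h1]
      · have e1 : min (1 : ℝ) t = 1 := min_eq_left h2
        rw [e1, max_eq_right zero_le_one]; simp
  · obtain ⟨κ, hκ, hl⟩ := h.loc
    refine ⟨κ, hκ, fun s t h1 h2 h3 h4 => ?_⟩
    have e1 : max 0 (min 1 s) = s := by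
      rw [min_eq_right (by linarith), max_eq_right h1]
    have e2 : max 0 (min 1 t) = t := by
      rw [min_eq_right h3, max_eq_right (by linarith)]
    have hba : 0 ≤ b - a := by linarith
    have hba1 : b - a ≤ 1 := by linarith
    simp only [e1, e2]
    rw [hl _ _ (by nlinarith) (by nlinarith) (by nlinarith) (by nlinarith)]
    ring

/-- Segments. -/
theorem exists_seg (h : LocCat P ε) {x y : P} (hxy : dist x y < ε) :
    ∃ γ : ℝ → P, LGeo γ (dist x y) ∧ γ 0 = x ∧ γ 1 = y := by
  refine ⟨fun t => pt x y (max 0 (min 1 t)), ⟨dist_nonneg, fun t => ?_, 1, one_pos, ?_⟩, ?_, ?_⟩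
  · congr 1
    rcases le_total t 0 with h1 | h1
    · have e1 : min (1 : ℝ) t = t := min_eq_right (by linarith)
      rw [e1, max_eq_left h1]; simp
    · rcases le_total t 1 with h2 | h2
      · have e1 : min (1 : ℝ) t = t := min_eq_right h2
        rw [e1, max_eq_right h1, e1, max_eq_right h1]
      · have e1 : min (1 : ℝ) t = 1 := min_eq_left h2
        rw [e1, max_eq_right zero_le_one]; simp
  · intro s t h1 h2 h3 _
    have e1 : max 0 (min 1 s) = s := by
      rw [min_eq_right (by linarith), max_eq_right h1]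
    have e2 : max 0 (min 1 t) = t := by
      rw [min_eq_right h3, max_eq_right (by linarith)]
    simp only [e1, e2]
    obtain ⟨k1, k2⟩ := h.pt_spec hxy h1 (by linarith)
    obtain ⟨k3, k4⟩ := h.pt_spec hxy (by linarith) h3
    rw [h.dist_pt hxy h1 h2 h3 k1 k2 k3 k4]
    ring
  · simp only
    rw [min_eq_right zero_le_one, max_self, h.pt_zero hxy]
  · simp only
    rw [min_self, max_eq_right zero_le_one, h.pt_one hxy]

namespace GeoSp

variable (h : GeoSp P ε)

include h

/-- The geodesic from `o` to `p`. -/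
noncomputable def geod (o p : P) : ℝ → P := (h.ex o p).choose

/-- The distance along the geodesic from `o` to `p`. -/
noncomputable def dd (o p : P) : ℝ := (h.ex o p).choose_spec.choose

theorem geod_spec (o p : P) : LGeo (h.geod o p) (h.dd o p) ∧ h.geod o p 0 = o ∧
    h.geod o p 1 = p := (h.ex o p).choose_spec.choose_spec

theorem eq_geod {o p : P} (hγ : LGeo γ L) (h0 : γ 0 = o) (h1 : γ 1 = p) : γ = h.geod o p := by
  obtain ⟨k1, k2, k3⟩ := h.geod_spec o p
  exact h.uniq _ _ _ _ hγ k1 (by rw [h0, k2]) (by rw [h1, k3])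

theorem dd_eq {o p : P} (hγ : LGeo γ L) (h0 : γ 0 = o) (h1 : γ 1 = p) : h.dd o p = L := by
  have := h.eq_geod hγ h0 h1
  subst this
  exact LGeo.length_unique (h.geod_spec o p).1 hγ

theorem dd_nonneg (o p : P) : 0 ≤ h.dd o p := (h.geod_spec o p).1.nonneg

theorem dd_symm (o p : P) : h.dd o p = h.dd p o := by
  obtain ⟨k1, k2, k3⟩ := h.geod_spec p o
  exact h.dd_eq (LGeo.rev k1) (by simpa using k3) (by simpa using k2)

theorem dd_of_lt {x y : P} (hxy : dist x y < ε) : h.dd x y = dist x y := by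
  obtain ⟨γ, h1, h2, h3⟩ := exists_seg h.cat hxy
  exact h.dd_eq h1 h2 h3

theorem dd_self (o : P) : h.dd o o = 0 := by
  rw [h.dd_of_lt (by rw [dist_self]; exact h.cat.pos), dist_self]

theorem dd_part (hγ : LGeo γ L) {a b : ℝ} (ha : 0 ≤ a) (hab : a ≤ b) (hb : b ≤ 1) :
    h.dd (γ a) (γ b) = (b - a) * L := by
  refine h.dd_eq (LGeo.part hγ ha hab hb) ?_ ?_
  · simp
  · simp

/-- Geodesics from the same point to close points. -/
theorem geod_near {o p p' : P} (hp : dist p p' < ε / 16) :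
    ∀ t ∈ Icc (0 : ℝ) 1, dist (h.geod o p t) (h.geod o p' t) ≤ t * dist p p' := by
  obtain ⟨k1, k2, k3⟩ := h.geod_spec o p
  obtain ⟨γ', L', n1, n2, n3, n4⟩ := h.near _ _ k1 p' (by rwa [k3])
  have e := h.eq_geod n1 (n2.trans k2) n3
  subst e
  intro t ht
  have := LGeo.convex h.cat k1 n1 n4 ht
  rwa [k2, k3, (h.geod_spec o p').2.1, (h.geod_spec o p').2.2, dist_self, mul_zero,
    zero_add] at this

/-- The distance is 1-Lipschitz. -/
theorem dd_lip {o p p' : P} (hp : dist p p' < ε / 16) : h.dd o p' ≤ h.dd o p + dist p p' := by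
  obtain ⟨k1, k2, k3⟩ := h.geod_spec o p
  obtain ⟨k1', k2', k3'⟩ := h.geod_spec o p'
  obtain ⟨κ, hκ, hl⟩ := k1.loc
  obtain ⟨κ', hκ', hl'⟩ := k1'.loc
  obtain ⟨t, ht⟩ : ∃ t, t = min (min κ κ') 1 := ⟨_, rfl⟩
  have t0 : 0 < t := by rw [ht]; exact lt_min (lt_min hκ hκ') one_pos
  have t1 : t ≤ 1 := by rw [ht]; exact min_le_right _ _
  have t2 : t ≤ κ := by rw [ht]; exact (min_le_left _ _).trans (min_le_left _ _)
  have t3 : t ≤ κ' := by rw [ht]; exact (min_le_left _ _).trans (min_le_right _ _)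
  have e1 := hl 0 t le_rfl t0.le t1 (by linarith)
  have e2 := hl' 0 t le_rfl t0.le t1 (by linarith)
  have e3 := h.geod_near (o := o) hp t ⟨t0.le, t1⟩
  rw [k2, sub_zero] at e1
  rw [k2', sub_zero] at e2
  have e4 := dist_triangle o (h.geod o p t) (h.geod o p' t)
  rw [e1, e2] at e4
  have e5 : t * h.dd o p' ≤ t * (h.dd o p + dist p p') := by linarith
  exact le_of_mul_le_mul_left e5 t0

theorem dd_lip' {o p p' : P} (hp : dist p p' < ε / 16) :
    |h.dd o p - h.dd o p'| ≤ dist p p' := by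
  have h1 := h.dd_lip (o := o) hp
  have h2 := h.dd_lip (o := o) (p := p') (p' := p) (by rwa [dist_comm])
  rw [dist_comm p' p] at h2
  rw [abs_le]
  constructor <;> linarith

theorem dd_chain (m : ℕ → P) (N : ℕ) (hm : ∀ i < N, dist (m i) (m (i + 1)) < ε / 16) :
    h.dd (m 0) (m N) ≤ ∑ i ∈ Finset.range N, dist (m i) (m (i + 1)) := by
  induction N with
  | zero => simp [h.dd_self]
  | succ N ih =>
    rw [Finset.sum_range_succ]
    have h1 := ih fun i hi => hm i (by omega)
    have h2 := h.dd_lip (o := m 0) (hm N (by omega))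
    linarith

/-- The square of the distance is strongly convex. -/
theorem dd_cn {o p p' m : P} (hp : dist p p' < ε / 16) (hm : Mid p m p') :
    h.dd o m ^ 2 ≤ h.dd o p ^ 2 / 2 + h.dd o p' ^ 2 / 2 - dist p p' ^ 2 / 4 := by
  have hε := h.cat.pos
  obtain ⟨k1, k2, k3⟩ := h.geod_spec o p
  obtain ⟨k1', k2', k3'⟩ := h.geod_spec o p'
  obtain ⟨κ, hκ, hl⟩ := k1.loc
  obtain ⟨κ', hκ', hl'⟩ := k1'.loc
  set L := h.dd o p with hL
  set L' := h.dd o p' with hL'
  have hL0 : 0 ≤ L := h.dd_nonneg o p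
  have hL0' : 0 ≤ L' := h.dd_nonneg o p'
  obtain ⟨N, hN⟩ := exists_nat_gt (max (max (1 / κ) (1 / κ')) (max (32 * L / ε) (32 * L' / ε)))
  have b1 := ((le_max_left _ _).trans (le_max_left _ _)).trans_lt hN
  have b2 := ((le_max_right _ _).trans (le_max_left _ _)).trans_lt hN
  have b3 := ((le_max_left _ _).trans (le_max_right _ _)).trans_lt hN
  have b4 := ((le_max_right _ _).trans (le_max_right _ _)).trans_lt hN
  have hN0 : (0 : ℝ) < N := (by positivity : (0 : ℝ) < 1 / κ).trans b1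
  have c1 : 1 / (N : ℝ) ≤ κ := by
    rw [div_lt_iff₀ hκ] at b1
    rw [div_le_iff₀ hN0]
    linarith
  have c2 : 1 / (N : ℝ) ≤ κ' := by
    rw [div_lt_iff₀ hκ'] at b2
    rw [div_le_iff₀ hN0]
    linarith
  have c3 : L / N < ε / 32 := by
    rw [div_lt_iff₀ hε] at b3
    rw [div_lt_iff₀ hN0]
    linarith
  have c4 : L' / N < ε / 32 := by
    rw [div_lt_iff₀ hε] at b4
    rw [div_lt_iff₀ hN0]
    linarith
  set x : ℕ → P := fun i => h.geod o p (i / N) with hx
  set w : ℕ → P := fun i => h.geod o p' (i / N) with hw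
  have hmem : ∀ i : ℕ, i ≤ N → (i : ℝ) / N ∈ Icc (0 : ℝ) 1 := fun i hi =>
    ⟨by positivity, by rw [div_le_one hN0]; exact_mod_cast hi⟩
  have hdiff : ∀ i : ℕ, ((i + 1 : ℕ) : ℝ) / N - (i : ℝ) / N = 1 / N := fun i => by
    push_cast
    field_simp
    ring
  have hxs : ∀ i < N, dist (x i) (x (i + 1)) = L / N := fun i hi => by
    have h1 := hdiff i
    have h2 : (0 : ℝ) < 1 / N := by positivity
    rw [hx]
    simp only
    rw [hl _ _ (hmem i hi.le).1 (by linarith) (hmem (i + 1) hi).2 (by linarith), h1]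
    ring
  have hws : ∀ i < N, dist (w i) (w (i + 1)) = L' / N := fun i hi => by
    have h1 := hdiff i
    have h2 : (0 : ℝ) < 1 / N := by positivity
    rw [hw]
    simp only
    rw [hl' _ _ (hmem i hi.le).1 (by linarith) (hmem (i + 1) hi).2 (by linarith), h1]
    ring
  have hNN : (N : ℝ) / N = 1 := div_self hN0.ne'
  have hxN : x N = p := by rw [hx]; simp only [hNN]; exact k3
  have hwN : w N = p' := by rw [hw]; simp only [hNN]; exact k3'
  have hx0 : x 0 = o := by rw [hx]; simp only [Nat.cast_zero, zero_div]; exact k2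
  have hw0 : w 0 = o := by rw [hw]; simp only [Nat.cast_zero, zero_div]; exact k2'
  have he : ∀ i ≤ N, dist (x i) (w i) ≤ (i : ℝ) / N * dist p p' := fun i hi =>
    h.geod_near (o := o) hp _ (hmem i hi)
  have he' : ∀ i ≤ N, dist (x i) (w i) < ε / 16 := fun i hi => by
    have h1 := he i hi
    have h2 := (hmem i hi).2
    have h3 : (i : ℝ) / N * dist p p' ≤ 1 * dist p p' :=
      mul_le_mul_of_nonneg_right h2 dist_nonneg
    linarith
  have hex : ∀ i : ℕ, ∃ n, i ≤ N → (Mid (x i) n (w i) ∧ (i = N → n = m)) := by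
    intro i
    by_cases hi : i ≤ N
    · by_cases hiN : i = N
      · refine ⟨m, fun _ => ⟨?_, fun _ => rfl⟩⟩
        rw [hiN, hxN, hwN]
        exact hm
      · obtain ⟨n, hn⟩ := h.cat.exists_mid (a := x i) (b := w i) (by linarith [he' i hi])
        exact ⟨n, fun _ => ⟨hn, fun h' => absurd h' hiN⟩⟩
    · exact ⟨m, fun h' => absurd h' hi⟩
  choose n hn using hex
  have hnN : n N = m := (hn N le_rfl).2 rfl
  have hn0 : n 0 = o := by
    have h1 := (hn 0 (Nat.zero_le _)).1
    rw [hx0, hw0] at h1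
    have h2 := h1.1
    rw [dist_self, zero_div] at h2
    exact (dist_eq_zero.1 h2).symm
  have hstep : ∀ i < N, dist (n i) (n (i + 1)) ^ 2 ≤ (L / N) ^ 2 / 2 + (L' / N) ^ 2 / 2 -
      (dist (x i) (w i) - dist (x (i + 1)) (w (i + 1))) ^ 2 / 4 := by
    intro i hi
    have h1 := (hn i hi.le).1
    have h2 := (hn (i + 1) hi).1
    have h3 := hxs i hi
    have h4 := hws i hi
    have h5 := he' i hi.le
    have h6 := he' (i + 1) hi
    have := quad_mid h.cat h1 h2 (by linarith) (by linarith) (by linarith) (by linarith)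
    rwa [h3, h4] at this
  have hshort : ∀ i < N, dist (n i) (n (i + 1)) < ε / 16 := by
    intro i hi
    have h1 := hstep i hi
    have h2 : 0 ≤ L / N := by positivity
    have h3 : 0 ≤ L' / N := by positivity
    have h4 : dist (n i) (n (i + 1)) ^ 2 < (ε / 16) ^ 2 := by nlinarith
    exact lt_of_pow_lt_pow_left₀ 2 (by positivity) h4
  have hch := h.dd_chain n N hshort
  rw [hn0, hnN] at hch
  have hcs : (∑ i ∈ Finset.range N, dist (n i) (n (i + 1))) ^ 2 ≤
      N * ∑ i ∈ Finset.range N, dist (n i) (n (i + 1)) ^ 2 := by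
    have := sq_sum_le_card_mul_sum_sq (s := Finset.range N)
      (f := fun i => dist (n i) (n (i + 1)))
    simpa using this
  have hcs' : (∑ i ∈ Finset.range N, (dist (x (i + 1)) (w (i + 1)) - dist (x i) (w i))) ^ 2 ≤
      N * ∑ i ∈ Finset.range N, (dist (x (i + 1)) (w (i + 1)) - dist (x i) (w i)) ^ 2 := by
    have := sq_sum_le_card_mul_sum_sq (s := Finset.range N)
      (f := fun i => dist (x (i + 1)) (w (i + 1)) - dist (x i) (w i))
    simpa using this
  rw [Finset.sum_range_sub (fun i => dist (x i) (w i)), hxN, hwN, hx0, hw0, dist_self,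
    sub_zero] at hcs'
  have hsum : ∑ i ∈ Finset.range N, dist (n i) (n (i + 1)) ^ 2 ≤
      N * ((L / N) ^ 2 / 2 + (L' / N) ^ 2 / 2) -
      (∑ i ∈ Finset.range N, (dist (x (i + 1)) (w (i + 1)) - dist (x i) (w i)) ^ 2) / 4 := by
    calc ∑ i ∈ Finset.range N, dist (n i) (n (i + 1)) ^ 2
        ≤ ∑ i ∈ Finset.range N, ((L / N) ^ 2 / 2 + (L' / N) ^ 2 / 2 -
          (dist (x (i + 1)) (w (i + 1)) - dist (x i) (w i)) ^ 2 / 4) := by
          refine Finset.sum_le_sum fun i hi => ?_
          have := hstep i (Finset.mem_range.1 hi)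
          rw [show (dist (x (i + 1)) (w (i + 1)) - dist (x i) (w i)) ^ 2 =
            (dist (x i) (w i) - dist (x (i + 1)) (w (i + 1))) ^ 2 by ring]
          exact this
      _ = _ := by
          rw [Finset.sum_sub_distrib, Finset.sum_const, Finset.card_range, nsmul_eq_mul,
            Finset.sum_div]
  have hfin : (N : ℝ) * (N * ((L / N) ^ 2 / 2 + (L' / N) ^ 2 / 2)) = L ^ 2 / 2 + L' ^ 2 / 2 := by
    field_simp
  have hD0 := h.dd_nonneg o m
  have hsq : h.dd o m ^ 2 ≤ (∑ i ∈ Finset.range N, dist (n i) (n (i + 1))) ^ 2 :=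
    pow_le_pow_left₀ hD0 hch 2
  have hmul := mul_le_mul_of_nonneg_left hsum hN0.le
  rw [mul_sub, hfin] at hmul
  linarith

/-- The inequality of Stewart for long geodesics. -/
theorem dd_stewart (q : P) (hγ : LGeo γ L) {u : ℝ} (hu : u ∈ Icc (0 : ℝ) 1) :
    h.dd q (γ u) ^ 2 ≤ (1 - u) * h.dd q (γ 0) ^ 2 + u * h.dd q (γ 1) ^ 2 -
      u * (1 - u) * L ^ 2 := by
  have hε := h.cat.pos
  have hL := hγ.nonneg
  obtain ⟨κ, hκ, hmid⟩ := hγ.mid
  have hcont : ContinuousOn (fun t => h.dd q (γ t)) (Icc 0 1) := by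
    have h1 := LGeo.continuousOn hγ
    rw [Metric.continuousOn_iff] at h1 ⊢
    intro t ht η hη
    obtain ⟨δ, hδ, h2⟩ := h1 t ht (min η (ε / 16)) (lt_min hη (by positivity))
    refine ⟨δ, hδ, fun a ha hab => ?_⟩
    have h3 := h2 a ha hab
    have h4 := h.dd_lip' (o := q) (h3.trans_le (min_le_right _ _))
    rw [Real.dist_eq]
    exact h4.trans_lt (h3.trans_le (min_le_left _ _))
  set ν := min κ (ε / (64 * (L + 1))) with hν
  have hν0 : 0 < ν := lt_min hκ (by positivity)
  have key := le_zero_of_midconvex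
    (g := fun t => h.dd q (γ t) ^ 2 - ((1 - t) * h.dd q (γ 0) ^ 2 + t * h.dd q (γ 1) ^ 2) +
      t * (1 - t) * L ^ 2)
    (by
      refine ContinuousOn.add (ContinuousOn.sub (hcont.pow 2) ?_) ?_ <;> fun_prop)
    (by simp) (by simp) hν0 (by
      intro t s h1 h2 h3 h4
      obtain ⟨h5, h6⟩ := hmid t s h1 (h2.trans (min_le_left _ _)) h3 h4
      have h7 : dist (γ (t - s)) (γ (t + s)) < ε / 16 := by
        rw [h6]
        have h8 : s ≤ ε / (64 * (L + 1)) := h2.trans (min_le_right _ _)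
        have h9 : L * s ≤ (L + 1) * (ε / (64 * (L + 1))) :=
          mul_le_mul (by linarith) h8 h1 (by linarith)
        have h10 : (L + 1) * (ε / (64 * (L + 1))) = ε / 64 := by field_simp
        linarith
      have h8 := h.dd_cn (o := q) h7 h5
      rw [h6] at h8
      nlinarith)
  have := key u hu
  linarith

/-- Points in directions at right angles or more from the direction of `o`. -/
theorem far_near {o y q : P} (hγ : LGeo γ L) (h0 : γ 0 = o) (h1 : γ 1 = y) {u : ℝ} (hu : 0 ≤ u)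
    (hu1 : u < 1) (hz : dist (γ u) q < ε) (hq : dist y q < ε) (hzy : dist (γ u) y = (1 - u) * L)
    (hang : dist (γ u) y ^ 2 + dist y q ^ 2 ≤ dist (γ u) q ^ 2) :
    L ^ 2 + dist y q ^ 2 ≤ h.dd o q ^ 2 := by
  have h2 := h.dd_stewart q hγ (u := u) ⟨hu, hu1.le⟩
  rw [h0, h1, h.dd_of_lt (by rwa [dist_comm]), h.dd_of_lt (x := q) (y := y) (by rwa [dist_comm]),
    h.dd_symm q o, dist_comm q (γ u), dist_comm q y] at h2
  have h3 : 0 < 1 - u := by linarith
  have h4 : (1 - u) * (L ^ 2 + dist y q ^ 2) ≤ (1 - u) * h.dd o q ^ 2 := by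
    rw [hzy] at hang
    nlinarith
  exact le_of_mul_le_mul_left h4 h3

/-- Local geodesics which start at right angles or more from the direction of `o`. -/
theorem far {o y a : P} (hγ : LGeo γ L) (h0 : γ 0 = o) (h1 : γ 1 = y) {σ : ℝ → P} {l : ℝ}
    (hσ : LGeo σ l) (hσ0 : σ 0 = y) (hσ1 : σ 1 = a) {u τ : ℝ} (hu : 0 ≤ u) (hu1 : u < 1)
    (hτ : 0 < τ) (hτ1 : τ ≤ 1) (hz : dist (γ u) (σ τ) < ε) (hq : dist y (σ τ) < ε)
    (hzy : dist (γ u) y = (1 - u) * L) (hyq : dist y (σ τ) = τ * l)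
    (hang : dist (γ u) y ^ 2 + dist y (σ τ) ^ 2 ≤ dist (γ u) (σ τ) ^ 2) :
    h.dd o y ^ 2 + l ^ 2 ≤ h.dd o a ^ 2 := by
  have h2 := h.far_near hγ h0 h1 hu hu1 hz hq hzy hang
  have h3 := h.dd_stewart o hσ (u := τ) ⟨hτ.le, hτ1⟩
  have h4 : h.dd o y = L := h.dd_eq hγ h0 h1
  rw [hσ0, hσ1, h4] at h3
  rw [hyq] at h2
  rw [h4]
  have h5 : τ * (L ^ 2 + l ^ 2) ≤ τ * h.dd o a ^ 2 := by nlinarith
  exact le_of_mul_le_mul_left h5 hτ

end GeoSp

end geo

end Pool.Agent.Helper50.GT
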