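import Pool.Agent.Helper26.GT.Fin
import Pool.Agent.Helper50.GT.StRz

/-!
# The theorem of Cartan and Hadamard for the realization, and the free edge theorem
-/

set_option autoImplicit false

namespace Pool.Agent.Helper50.GT

open Pool.Agent.Helper3.FJ Pool.Agent.Helper3.FJ.Cpx Pool.Agent.Helper37.CH
  Pool.Agent.Helper26.GT Pool.Agent.Helper63.GT

/-- The hypotheses of the theorem of Cartan and Hadamard hold for the realization of a simply
connected piecewise Euclidean complex with the link condition. -/
theorem rz_hyp {V : Type} (D : PE V) (hU : D.U.SimplyConn) :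
    Hyp (Rz D) (D.ρ / 2) (D.ρ / 32) where
  cat := rz_locCat D
  complete := rz_complete D
  pos := by have := D.ρ_pos; linarith
  le := by linarith
  sc := rz_scAt D hU (rz_locCat D) (by have := D.ρ_pos; linarith) (by have := D.ρ_pos; linarith)
    (by have := D.ρ_pos; linarith)

/-- **The free edge theorem** for simply connected piecewise Euclidean complexes. -/
theorem geoU : Pool.Agent.Helper13.GT.GeoU :=
  geoU_of_hyp fun D hU => ⟨D.ρ / 2, D.ρ / 32, rz_hyp D hU⟩

end Pool.Agent.Helper50.GT
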