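import Pool.Agent.Helper3.FE.Free

/-!
# Free edges from a gradient condition
-/

set_option autoImplicit false

namespace Pool.Agent.Helper50.GT

open Pool.Agent.Helper3.FJ Pool.Agent.Helper3.FE

variable {V : Type} {X : Cpx V} {R : Type} [Group R] [MulAction R V]

/-- The edge from `y` to `a` is fixed by an element of `R` which moves a triangle on it. -/
def Fxe (X : Cpx V) (R : Type) [Group R] [MulAction R V] (y a : V) : Prop :=
  ∃ (r : R) (b : V), r • y = y ∧ r • a = a ∧ X.tri y a b ∧ r • b ≠ b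

/-- A gradient: `D` is the distance from the orbit of a base point, `ρ y a` is the angle at `y`
between the direction to the base point and the edge to `a` (in the quotient of the link by the
stabilizer of `y`), `c` is a right angle. -/
structure Grad (X : Cpx V) (R : Type) [Group R] [MulAction R V] (c : ℝ) (D : V → ℝ)
    (ρ : V → V → ℝ) : Prop where
  D_inv : ∀ (r : R) v, D (r • v) = D v
  ρ_inv : ∀ (r : R) y a, ρ (r • y) (r • a) = ρ y a
  up : ∀ y a, X.adj y a → c ≤ ρ y a → D y < D a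
  uniq : ∀ y a b b', X.tri y a b → X.tri y a b' → ρ y a < c → ρ y b ≤ ρ y a →
    ρ y b' ≤ ρ y a → ∃ r : R, r • y = y ∧ r • a = a ∧ r • b = b'
  fix : ∀ y a a', ρ y a < c → ρ y a' < c → Fxe X R y a → Fxe X R y a' →
    ∃ r : R, r • y = y ∧ r • a = a'

/-- The orbit of `a` under the stabilizer of `y`. -/
def orb (R : Type) [Group R] [MulAction R V] (y a : V) : Set V :=
  {a' | ∃ r : R, r • y = y ∧ r • a = a'}

theorem mem_orb_self (y a : V) : a ∈ orb R y a := ⟨1, by simp, by simp⟩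

theorem inv_fix {r : R} {y : V} (h : r • y = y) : r⁻¹ • y = y := by
  rw [inv_smul_eq_iff, h]

theorem orb_eq {y a a' : V} (h : a' ∈ orb R y a) : orb R y a' = orb R y a := by
  obtain ⟨r, h1, rfl⟩ := h
  ext x
  constructor
  · rintro ⟨s, h2, rfl⟩
    exact ⟨s * r, by rw [mul_smul, h1, h2], by rw [mul_smul]⟩
  · rintro ⟨s, h2, rfl⟩
    exact ⟨s * r⁻¹, by rw [mul_smul, inv_fix h1, h2], by rw [mul_smul, inv_smul_smul]⟩

theorem no_finite {k : V → ℕ} {c : ℝ} {D : V → ℝ} {ρ : V → V → ℝ}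
    (hk : ∀ (r : R) v, k (r • v) = k v) (hk' : ∀ u v, X.adj u v → k u ≠ k v)
    (hG : Grad X R c D ρ) (T : V → V → V → Prop) (h1 : ∀ a b c, T a b c → X.tri a b c)
    (h2 : ∀ a b c, T a b c → T b c a) (h3 : ∀ a b c, T a b c → T b a c)
    (h4 : ∀ (r : R) a b c, T a b c → T (r • a) (r • b) (r • c)) (y : V)
    (hy : ∀ a b, T y a b → ρ y a < c) : ∀ (n : ℕ) (P : Set V) (e : V),
    (∀ a ∈ P, ∃ b, T y a b) → (∀ r : R, r • y = y → ∀ a ∈ P, r • a ∈ P) →
    (orb R y '' P).Finite → (ρ y '' P).Finite → (orb R y '' P).ncard = n → P.Nonempty →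
    (∀ a ∈ P, a ∉ orb R y e → ∀ b ∈ P, T y a b → ∃ b' ∈ P, T y a b' ∧
      ¬ ∃ r : R, r • y = y ∧ r • a = a ∧ r • b = b') →
    (∀ a ∈ P, ∃ b ∈ P, T y a b) → False := by
  intro n
  have hsw : ∀ a b, T y a b → T y b a := fun a b h => h2 _ _ _ (h3 _ _ _ h)
  induction n using Nat.strong_induction_on with
  | _ n ih =>
    intro P e hP hPi hfin hfin' hn hne hdeg2 hdeg1
    obtain ⟨_, ⟨⟨m, hm, rfl⟩, hmax⟩⟩ := hfin'.exists_maximal (hne.image _)
    have hmax' : ∀ a ∈ P, ρ y a ≤ ρ y m := fun a ha => by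
      by_contra hlt
      push Not at hlt
      exact absurd (hmax ⟨a, ha, rfl⟩ hlt.le) (not_le.2 hlt)
    have hu : ∀ b ∈ P, ∀ b' ∈ P, T y m b → T y m b' →
        ∃ r : R, r • y = y ∧ r • m = m ∧ r • b = b' := fun b hb b' hb' hT hT' =>
      hG.uniq y m b b' (h1 _ _ _ hT) (h1 _ _ _ hT') (hy _ _ hT) (hmax' b hb) (hmax' b' hb')
    obtain ⟨b, hb, hmb⟩ := hdeg1 m hm
    have hme : m ∈ orb R y e := by
      by_contra hcon
      obtain ⟨b', hb', hmb', hno⟩ := hdeg2 m hm hcon b hb hmb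
      exact hno (hu b hb b' hb' hmb hmb')
    have hoe := orb_eq hme
    have hkb : ∀ a ∈ orb R y m, k a = k m := by
      rintro _ ⟨r, -, rfl⟩
      exact hk r m
    have hbm : b ∉ orb R y m := fun hcon =>
      hk' m b (X.tri_adj _ _ _ (X.tri_rot _ _ _ (h1 _ _ _ hmb))) (hkb b hcon).symm
    -- neighbours of the orbit of `m`
    have hnb : ∀ a ∈ P, ∀ x ∈ orb R y m, T y a x → a ∈ orb R y b := by
      rintro a ha _ ⟨r, hr, rfl⟩ hT
      have hT' : T y m (r⁻¹ • a) := by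
        have := h4 r⁻¹ _ _ _ hT
        rw [inv_fix hr, inv_smul_smul] at this
        exact hsw _ _ this
      obtain ⟨s, hs1, hs2, hs3⟩ := hu b hb _ (hPi _ (inv_fix hr) a ha) hmb hT'
      refine ⟨r * s, by rw [mul_smul, hs1, hr], ?_⟩
      rw [mul_smul, hs3, smul_inv_smul]
    refine ih (orb R y '' {a ∈ P | a ∉ orb R y m}).ncard ?_ {a ∈ P | a ∉ orb R y m} b
      (fun a ha => hP a ha.1) ?_ (hfin.subset (Set.image_mono fun a ha => ha.1))
      (hfin'.subset (Set.image_mono fun a ha => ha.1)) rfl ⟨b, hb, hbm⟩ ?_ ?_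
    · rw [← hn]
      refine Set.ncard_lt_ncard ?_ hfin
      refine (Set.ssubset_iff_of_subset (Set.image_mono fun a ha => ha.1)).2
        ⟨_, ⟨m, hm, rfl⟩, ?_⟩
      rintro ⟨a, ha, he⟩
      apply ha.2
      rw [← he]
      exact mem_orb_self y a
    · rintro r hr a ⟨ha, ha'⟩
      refine ⟨hPi r hr a ha, fun hcon => ha' ?_⟩
      rw [← orb_eq hcon, orb_eq ⟨r, hr, rfl⟩]
      exact mem_orb_self y a
    · rintro a ⟨ha, ham⟩ hab x ⟨hx, hxm⟩ hT
      obtain ⟨x', hx', hT', hno⟩ := hdeg2 a ha (by rwa [← hoe]) x hx hT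
      exact ⟨x', ⟨hx', fun hcon => hab (hnb a ha x' hcon hT')⟩, hT', hno⟩
    · rintro a ⟨ha, ham⟩
      by_cases hab : a ∈ orb R y b
      · obtain ⟨r, hr, rfl⟩ := hab
        have hbe : b ∉ orb R y e := by rwa [← hoe]
        obtain ⟨d, hd, hT, hno⟩ := hdeg2 b hb hbe m hm (hsw _ _ hmb)
        refine ⟨r • d, ⟨hPi r hr d hd, fun hcon => hno ?_⟩, ?_⟩
        · have hdm : d ∈ orb R y m := by
            rw [← orb_eq hcon, orb_eq ⟨r, hr, rfl⟩]
            exact mem_orb_self y d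
          obtain ⟨s, hs, rfl⟩ := hdm
          have hT' : T y m (s⁻¹ • b) := by
            have := h4 s⁻¹ _ _ _ hT
            rw [inv_fix hs, inv_smul_smul] at this
            exact hsw _ _ this
          obtain ⟨t, ht1, ht2, ht3⟩ := hu b hb _ (hPi _ (inv_fix hs) b hb) hmb hT'
          refine ⟨s * t, by rw [mul_smul, ht1, hs], ?_, ?_⟩
          · rw [mul_smul, ht3, smul_inv_smul]
          · rw [mul_smul, ht2]
        · have := h4 r _ _ _ hT
          rwa [hr] at this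
      · obtain ⟨x, hx, hT⟩ := hdeg1 a ha
        exact ⟨x, ⟨hx, fun hcon => hab (hnb a ha x hcon hT)⟩, hT⟩

/-- Free edges from a gradient. -/
theorem hasFree_of_grad {k : V → ℕ} {c : ℝ} {D : V → ℝ} {ρ : V → V → ℝ}
    (hk : ∀ (r : R) v, k (r • v) = k v) (hk' : ∀ u v, X.adj u v → k u ≠ k v)
    (hG : Grad X R c D ρ) : HasFree X R := by
  intro T h1 h2 h3 h4 h5 h6
  by_contra hno
  push Not at hno
  obtain ⟨S, hS, hS'⟩ := h5
  -- a vertex with maximal `D`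
  have hfinD : (D '' {a | ∃ b c, T a b c}).Finite := by
    refine (hS.image fun s => D s.1).subset ?_
    rintro _ ⟨a, ⟨b, c, hT⟩, rfl⟩
    obtain ⟨g, hg⟩ := hS' _ _ _ hT
    exact ⟨_, hg, hG.D_inv g a⟩
  obtain ⟨a₀, b₀, c₀, hT₀⟩ := h6
  obtain ⟨_, ⟨⟨y, ⟨b₁, c₁, hT₁⟩, rfl⟩, hmax⟩⟩ :=
    hfinD.exists_maximal ⟨D a₀, a₀, ⟨b₀, c₀, hT₀⟩, rfl⟩
  have hmax' : ∀ a b c, T a b c → D a ≤ D y := fun a b c hT => by
    by_contra hlt
    push Not at hlt
    exact absurd (hmax ⟨a, ⟨b, c, hT⟩, rfl⟩ hlt.le) (not_le.2 hlt)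
  have hsw : ∀ a b, T y a b → T y b a := fun a b h => h2 _ _ _ (h3 _ _ _ h)
  have hy : ∀ a b, T y a b → ρ y a < c := fun a b hT => by
    by_contra hge
    push Not at hge
    exact absurd (hmax' a b y (h2 _ _ _ hT))
      (not_le.2 (hG.up y a (X.tri_adj _ _ _ (h1 _ _ _ hT)) hge))
  have hfix : ∀ a b b', T y a b → T y a b' → b ≠ b' →
      (∃ r : R, r • y = y ∧ r • a = a ∧ r • b = b') → Fxe X R y a := by
    rintro a b b' hT hT' hne ⟨r, hr1, hr2, hr3⟩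
    exact ⟨r, b, hr1, hr2, h1 _ _ _ hT, by rw [hr3]; exact hne.symm⟩
  have hdeg1 : ∀ a ∈ {a | ∃ b, T y a b}, ∃ b ∈ {a | ∃ b, T y a b}, T y a b := by
    rintro a ⟨b, hb⟩
    exact ⟨b, ⟨a, hsw _ _ hb⟩, hb⟩
  have hinv : ∀ r : R, r • y = y → ∀ a ∈ {a | ∃ b, T y a b}, r • a ∈ {a | ∃ b, T y a b} := by
    rintro r hr a ⟨b, hb⟩
    refine ⟨r • b, ?_⟩
    have := h4 r _ _ _ hb
    rwa [hr] at this
  have hfin : (orb R y '' {a | ∃ b, T y a b}).Finite := by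
    refine (hS.image fun s => {a' | ∃ g : R, g • y = s.1 ∧ g • a' = s.2.1}).subset ?_
    rintro _ ⟨a, ⟨b, hT⟩, rfl⟩
    obtain ⟨g, hg⟩ := hS' _ _ _ hT
    refine ⟨_, hg, ?_⟩
    ext a'
    constructor
    · rintro ⟨g', e1, e2⟩
      have e1' : g' • y = g • y := e1
      have e2' : g' • a' = g • a := e2
      refine ⟨g'⁻¹ * g, ?_, ?_⟩
      · rw [mul_smul, ← e1', inv_smul_smul]
      · rw [mul_smul, ← e2', inv_smul_smul]
    · rintro ⟨r, hr, rfl⟩
      refine ⟨g * r⁻¹, ?_, ?_⟩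
      · rw [mul_smul, inv_fix hr]
      · rw [mul_smul, inv_smul_smul]
  have hfin' : (ρ y '' {a | ∃ b, T y a b}).Finite := by
    refine (hS.image fun s => ρ s.1 s.2.1).subset ?_
    rintro _ ⟨a, ⟨b, hT⟩, rfl⟩
    obtain ⟨g, hg⟩ := hS' _ _ _ hT
    exact ⟨_, hg, hG.ρ_inv g y a⟩
  by_cases hf : ∃ f b, T y f b ∧ Fxe X R y f
  · obtain ⟨f, bf, hTf, hf⟩ := hf
    refine no_finite hk hk' hG T h1 h2 h3 h4 y hy _ {a | ∃ b, T y a b} f (fun a h => h) hinv
      hfin hfin' rfl ⟨b₁, c₁, hT₁⟩ ?_ hdeg1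
    rintro a ⟨b', hb'⟩ haf b hb hT
    obtain ⟨x, hx, hne⟩ := hno y a b hT
    refine ⟨x, ⟨a, hsw _ _ hx⟩, hx, fun hr => haf ?_⟩
    exact hG.fix y f a (hy _ _ hTf) (hy _ _ hT) hf (hfix a b x hT hx hne.symm hr)
  · refine no_finite hk hk' hG T h1 h2 h3 h4 y hy _ {a | ∃ b, T y a b} y (fun a h => h) hinv
      hfin hfin' rfl ⟨b₁, c₁, hT₁⟩ ?_ hdeg1
    rintro a ⟨b', hb'⟩ haf b hb hT
    obtain ⟨x, hx, hne⟩ := hno y a b hT
    refine ⟨x, ⟨a, hsw _ _ hx⟩, hx, fun hr => hf ?_⟩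
    exact ⟨a, b, hT, hfix a b x hT hx hne.symm hr⟩

end Pool.Agent.Helper50.GT
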