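import Mathlib

/-!
# Weighted graphs without short circuits
-/

set_option autoImplicit false

namespace Pool.Agent.Helper50.GT

open SimpleGraph

variable {V : Type*} {Γ : SimpleGraph V}

/-- The weight of a walk. -/
def wt (w : V → V → ℝ) : ∀ {a b : V}, Γ.Walk a b → ℝ
  | _, _, .nil => 0
  | _, _, .cons (u := a) (v := b) _ p => w a b + wt w p

variable {w : V → V → ℝ}

@[simp] theorem wt_nil {a : V} : wt w (Walk.nil : Γ.Walk a a) = 0 := rfl

@[simp] theorem wt_cons {a b c : V} (h : Γ.Adj a b) (p : Γ.Walk b c) :
    wt w (Walk.cons h p) = w a b + wt w p := rfl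

theorem wt_append {a b c : V} (p : Γ.Walk a b) (q : Γ.Walk b c) :
    wt w (p.append q) = wt w p + wt w q := by
  induction p with
  | nil => simp
  | cons h p ih => simp [ih, add_assoc]

theorem wt_concat {a b c : V} (p : Γ.Walk a b) (h : Γ.Adj b c) :
    wt w (p.concat h) = wt w p + w b c := by
  rw [Walk.concat_eq_append, wt_append]; simp

theorem wt_reverse (hs : ∀ a b, w a b = w b a) {a b : V} (p : Γ.Walk a b) :
    wt w p.reverse = wt w p := by
  induction p with
  | nil => simp
  | cons h p ih => rw [Walk.reverse_cons, wt_append, ih]; simp [hs, add_comm]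

theorem wt_nonneg (hp : ∀ a b, Γ.Adj a b → 0 ≤ w a b) {a b : V} (p : Γ.Walk a b) : 0 ≤ wt w p := by
  induction p with
  | nil => simp
  | cons h p ih => simp only [wt_cons]; linarith [hp _ _ h]

theorem wt_eq_sum {a b : V} (p : Γ.Walk a b) :
    wt w p = ∑ i ∈ Finset.range p.length, w (p.getVert i) (p.getVert (i + 1)) := by
  induction p with
  | nil => simp
  | cons h p ih =>
    rw [wt_cons, ih, Walk.length_cons, Finset.sum_range_succ', add_comm]
    simp

theorem wt_subwalk (hp : ∀ a b, Γ.Adj a b → 0 ≤ w a b) {a b c d : V} {p : Γ.Walk a b}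
    {q : Γ.Walk c d} (h : p.IsSubwalk q) : wt w p ≤ wt w q := by
  obtain ⟨r, s, rfl⟩ := h
  rw [wt_append, wt_append]
  linarith [wt_nonneg hp r, wt_nonneg hp s]

/-- Symmetric positive weights for which each circuit has weight at least `B`. -/
structure Circ (Γ : SimpleGraph V) (w : V → V → ℝ) (B : ℝ) : Prop where
  symm : ∀ a b, w a b = w b a
  pos : ∀ a b, Γ.Adj a b → 0 < w a b
  circ : ∀ (k : ℕ) (u : ZMod (k + 3) → V), Function.Injective u →
    (∀ i, Γ.Adj (u i) (u (i + 1))) → B ≤ ∑ i, w (u i) (u (i + 1))

variable {B : ℝ}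

theorem Circ.cycle (h : Circ Γ w B) {a : V} {c : Γ.Walk a a} (hc : c.IsCycle) : B ≤ wt w c := by
  obtain ⟨k, hk⟩ : ∃ k, c.length = k + 3 := ⟨c.length - 3, by have := hc.three_le_length; omega⟩
  have key : ∀ i : ZMod (k + 3), c.getVert (i + 1 : ZMod (k + 3)).val = c.getVert (i.val + 1) := by
    intro i
    by_cases hi : i.val + 1 < k + 3
    · congr 1
      rw [ZMod.val_add_of_lt]
      · rw [ZMod.val_one'' (by omega)]
      · rw [ZMod.val_one'' (by omega)]; exact hi
    · have h1 : i.val + 1 = k + 3 := by have := ZMod.val_lt i; omega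
      have h2 : (i + 1 : ZMod (k + 3)) = 0 := by
        have : ((i.val + 1 : ℕ) : ZMod (k + 3)) = 0 := by rw [h1]; exact ZMod.natCast_self _
        simpa using this
      rw [h2, h1, ← hk, Walk.getVert_length]
      simp
  have := h.circ k (fun i => c.getVert i.val) (fun i j hij => ?_) (fun i => ?_)
  · refine this.trans (le_of_eq ?_)
    rw [wt_eq_sum, hk]
    simp only [key]
    exact Fin.sum_univ_eq_sum_range (fun i => w (c.getVert i) (c.getVert (i + 1))) (k + 3)
  · have hi := ZMod.val_lt i
    have hj := ZMod.val_lt j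
    exact ZMod.val_injective _ (hc.getVert_injOn' (by simp only [Set.mem_setOf_eq]; omega)
      (by simp only [Set.mem_setOf_eq]; omega) hij)
  · simp only [key]
    exact c.adj_getVert_succ (by have := ZMod.val_lt i; omega)

theorem Circ.two_paths (h : Circ Γ w B) {a b : V} {p q : Γ.Walk a b} (hp : p.IsPath)
    (hq : q.IsPath) (hne : p ≠ q) : B ≤ wt w p + wt w q := by
  have h0 : ∀ a b, Γ.Adj a b → 0 ≤ w a b := fun a b hab => (h.pos a b hab).le
  obtain ⟨u, v, p', q', hp', hq', hc⟩ := hp.exists_isCycle_of_ne hq hne
  have h1 := h.cycle hc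
  rw [wt_append, wt_reverse h.symm] at h1
  linarith [wt_subwalk h0 hp', wt_subwalk h0 hq']

/-- A walk without backtracking. -/
def NB {a b : V} (p : Γ.Walk a b) : Prop :=
  ∀ i, i + 2 ≤ p.length → p.getVert i ≠ p.getVert (i + 2)

theorem NB.tail {a b c : V} {h : Γ.Adj a b} {p : Γ.Walk b c} (hp : NB (Walk.cons h p)) : NB p := by
  intro i hi
  have := hp (i + 1) (by simp only [Walk.length_cons]; omega)
  simpa using this

theorem NB.of_isPath {a b : V} {p : Γ.Walk a b} (hp : p.IsPath) : NB p := by
  intro i hi h
  have := hp.getVert_injOn (by simp only [Set.mem_setOf_eq]; omega)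
    (by simp only [Set.mem_setOf_eq]; omega) h
  omega

theorem NB.append {a b c : V} {p : Γ.Walk a b} {q : Γ.Walk b c} (hp : NB p) (hq : NB q)
    (h : ∀ _ : 1 ≤ p.length, ∀ _ : 1 ≤ q.length, p.penultimate ≠ q.snd) : NB (p.append q) := by
  intro i hi
  rw [Walk.length_append] at hi
  rw [Walk.getVert_append, Walk.getVert_append]
  by_cases h1 : i + 2 < p.length
  · rw [if_pos (by omega), if_pos h1]
    exact hp i h1.le
  · rw [if_neg h1]
    by_cases h2 : i < p.length
    · rw [if_pos h2]
      by_cases h3 : i + 2 = p.length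
      · rw [show i + 2 - p.length = 0 by omega, Walk.getVert_zero]
        have := hp i (by omega)
        rwa [h3, Walk.getVert_length] at this
      · have h4 : i + 1 = p.length := by omega
        rw [show i + 2 - p.length = 1 by omega]
        have := h (by omega) (by omega)
        rwa [Walk.penultimate, show p.length - 1 = i by omega, Walk.snd] at this
    · rw [if_neg h2]
      have := hq (i - p.length) (by omega)
      rwa [show i - p.length + 2 = i + 2 - p.length by omega] at this

/-- Walks without backtracking of weight less than `B` are paths. -/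
theorem Circ.isPath_of_nb (h : Circ Γ w B) {a b : V} {p : Γ.Walk a b} (hp : NB p)
    (hB : wt w p < B) : p.IsPath := by
  classical
  have h0 : ∀ a b, Γ.Adj a b → 0 ≤ w a b := fun a b hab => (h.pos a b hab).le
  induction p with
  | nil => simp
  | @cons a b c hab p ih =>
    have hp' := ih hp.tail (by
      rw [wt_cons] at hB; linarith [h0 _ _ hab])
    rw [Walk.cons_isPath_iff]
    refine ⟨hp', fun ha => ?_⟩
    have ht : (p.takeUntil a ha).IsPath := hp'.takeUntil ha
    have hc : (Walk.cons hab (p.takeUntil a ha)).IsCycle := by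
      rw [Walk.cons_isCycle_iff]
      refine ⟨ht, fun he => ?_⟩
      rw [Sym2.eq_swap] at he
      have h1 := ht.length_eq_one_of_mem_edges he
      have h2 : p.getVert 1 = a := by
        rw [← h1]; exact Walk.getVert_length_takeUntil ha
      have h3 : 1 ≤ p.length := by
        have := Walk.length_takeUntil_le_length p ha
        omega
      have := hp 0 (by simp only [Walk.length_cons]; omega)
      simp only [Walk.getVert_zero, zero_add] at this
      rw [show (2 : ℕ) = 1 + 1 from rfl, Walk.getVert_cons_succ, h2] at this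
      exact this rfl
    have := h.cycle hc
    rw [wt_cons] at this hB
    have h5 : wt w (p.takeUntil a ha) ≤ wt w p := by
      conv_rhs => rw [← Walk.take_spec p ha, wt_append]
      linarith [wt_nonneg h0 (p.dropUntil a ha)]
    linarith

/-- The concatenation of two paths with different edges at the common point is a path if its
weight is less than `B`. -/
theorem Circ.append_isPath (h : Circ Γ w B) {a b c : V} {p : Γ.Walk a b} {q : Γ.Walk b c}
    (hp : p.IsPath) (hq : q.IsPath)
    (hne : ∀ _ : 1 ≤ p.length, ∀ _ : 1 ≤ q.length, p.penultimate ≠ q.snd)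
    (hB : wt w p + wt w q < B) : (p.append q).IsPath :=
  h.isPath_of_nb ((NB.of_isPath hp).append (NB.of_isPath hq) hne) (by rwa [wt_append])

/-- Two different walks without backtracking with the same ends have total weight at least `B`. -/
theorem Circ.two_nb (h : Circ Γ w B) {a b : V} {p q : Γ.Walk a b} (hp : NB p) (hq : NB q)
    (hne : p ≠ q) : B ≤ wt w p + wt w q := by
  have h0 : ∀ a b, Γ.Adj a b → 0 ≤ w a b := fun a b hab => (h.pos a b hab).le
  by_contra hlt
  push Not at hlt
  exact absurd (h.two_paths (h.isPath_of_nb hp (by linarith [wt_nonneg h0 q]))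
    (h.isPath_of_nb hq (by linarith [wt_nonneg h0 p])) hne) (not_le.2 hlt)

/-- Each walk can be replaced by a path which is not heavier and uses only vertices and edges of
the walk. -/
theorem exists_path (hp : ∀ a b, Γ.Adj a b → 0 ≤ w a b) {a b : V} (p : Γ.Walk a b) :
    ∃ q : Γ.Walk a b, q.IsPath ∧ wt w q ≤ wt w p ∧ q.support ⊆ p.support ∧ q.edges ⊆ p.edges := by
  classical
  induction p with
  | nil => exact ⟨Walk.nil, by simp, le_rfl, by simp, by simp⟩
  | @cons a b c hab p ih =>
    obtain ⟨q, hq, hw, hs, he⟩ := ih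
    by_cases ha : a ∈ q.support
    · refine ⟨q.dropUntil a ha, hq.dropUntil ha, ?_, ?_, ?_⟩
      · have h5 : wt w (q.dropUntil a ha) ≤ wt w q := by
          conv_rhs => rw [← Walk.take_spec q ha, wt_append]
          linarith [wt_nonneg hp (q.takeUntil a ha)]
        rw [wt_cons]
        linarith [hp _ _ hab]
      · intro x hx
        rw [Walk.support_cons]
        exact List.mem_cons_of_mem _ (hs (Walk.support_dropUntil_subset q ha hx))
      · intro x hx
        rw [Walk.edges_cons]
        exact List.mem_cons_of_mem _ (he (Walk.edges_dropUntil_subset q ha hx))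
    · refine ⟨Walk.cons hab q, by rw [Walk.cons_isPath_iff]; exact ⟨hq, ha⟩, ?_, ?_, ?_⟩
      · rw [wt_cons, wt_cons]; linarith
      · rw [Walk.support_cons, Walk.support_cons]
        exact List.cons_subset_cons _ hs
      · rw [Walk.edges_cons, Walk.edges_cons]
        exact List.cons_subset_cons _ he

end Pool.Agent.Helper50.GT
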