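import Mathlib

/-!
# The Stewart inequality in a cone: trigonometry
-/

set_option autoImplicit false

namespace Pool.Agent.Helper50.GT

open Real

theorem cos_le_cos_of_abs {x y : ℝ} (h : |x| ≤ y) (hy : y ≤ π) : cos y ≤ cos x := by
  rw [← cos_abs x]
  exact cos_le_cos_of_nonneg_of_le_pi (abs_nonneg x) hy h

/-- The trigonometric core of the inequality of Stewart in a cone. -/
theorem stewart_core {θ₁ θ₂ μ α β : ℝ} (h1 : 0 ≤ θ₁) (h2 : 0 ≤ θ₂) (h12 : θ₁ + θ₂ ≤ π)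
    (hα : |μ - θ₁| ≤ α) (hα' : α ≤ π) (hβ : |μ - θ₂| ≤ β) (hβ' : β ≤ π)
    (hL : cos β ≤ cos (μ + θ₂) ∨ cos α ≤ cos (μ + θ₁)) :
    sin θ₂ * cos α + sin θ₁ * cos β ≤ sin (θ₁ + θ₂) * cos μ := by
  have s1 : 0 ≤ sin θ₁ := sin_nonneg_of_nonneg_of_le_pi h1 (by linarith)
  have s2 : 0 ≤ sin θ₂ := sin_nonneg_of_nonneg_of_le_pi h2 (by linarith)
  have a1 := cos_le_cos_of_abs hα hα'
  have b1 := cos_le_cos_of_abs hβ hβ'
  rcases hL with h | h
  · have e1 := mul_le_mul_of_nonneg_left a1 s2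
    have e2 := mul_le_mul_of_nonneg_left h s1
    have : sin θ₂ * cos (μ - θ₁) + sin θ₁ * cos (μ + θ₂) = sin (θ₁ + θ₂) * cos μ := by
      rw [cos_sub, cos_add, sin_add]; ring
    linarith
  · have e1 := mul_le_mul_of_nonneg_left b1 s1
    have e2 := mul_le_mul_of_nonneg_left h s2
    have : sin θ₂ * cos (μ + θ₁) + sin θ₁ * cos (μ - θ₂) = sin (θ₁ + θ₂) * cos μ := by
      rw [cos_sub, cos_add, sin_add]; ring
    linarith

/-- The square of the distance of two points of a cone: `a` and `b` are their distances from the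
apex, `θ` is their angular distance. -/
noncomputable def lc (a b θ : ℝ) : ℝ := a ^ 2 + b ^ 2 - 2 * a * b * cos θ

/-- The inequality of Stewart in a cone. The point `m` of norm `c` lies on the segment from `q`
(norm `a`) to `r` (norm `b`), at the proportion `t`. -/
theorem stewart {θ₁ θ₂ μ α β a b c t x : ℝ} (hx : 0 ≤ x) (ha : 0 ≤ a) (hb : 0 ≤ b) (hc : 0 ≤ c)
    (ht : 0 ≤ t) (ht' : t ≤ 1) (h12 : 0 < sin (θ₁ + θ₂))
    (e1 : (1 - t) * a * sin θ₁ = t * b * sin θ₂)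
    (e2 : (1 - t) * a * cos θ₁ + t * b * cos θ₂ = c)
    (key : sin θ₂ * cos α + sin θ₁ * cos β ≤ sin (θ₁ + θ₂) * cos μ)
    (s1 : 0 ≤ sin θ₁) (s2 : 0 ≤ sin θ₂) :
    lc x c μ ≤ (1 - t) * lc x a α + t * lc x b β - t * (1 - t) * lc a b (θ₁ + θ₂) := by
  -- `c sin θ₂ ... `
  have hA : c * sin θ₂ = (1 - t) * a * sin (θ₁ + θ₂) := by
    rw [← e2, sin_add]; linear_combination (-cos θ₂) * e1
  have hB : c * sin θ₁ = t * b * sin (θ₁ + θ₂) := by
    rw [← e2, sin_add]; linear_combination (cos θ₁) * e1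
  have hcc : c ^ 2 = (1 - t) * a ^ 2 + t * b ^ 2 - t * (1 - t) * lc a b (θ₁ + θ₂) := by
    unfold lc
    rw [cos_add, ← e2]
    have h1 := sin_sq_add_cos_sq θ₁
    have h2 := sin_sq_add_cos_sq θ₂
    have e3 : ((1 - t) * a * sin θ₁ - t * b * sin θ₂) ^ 2 = 0 := by rw [e1]; ring
    linear_combination ((1 - t) * a) ^ 2 * h1 + (t * b) ^ 2 * h2 - e3
  have main : (1 - t) * a * cos α + t * b * cos β ≤ c * cos μ := by
    have h3 : sin (θ₁ + θ₂) * ((1 - t) * a * cos α + t * b * cos β) ≤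
        sin (θ₁ + θ₂) * (c * cos μ) := by
      have := mul_le_mul_of_nonneg_left key hc
      calc _ = (c * sin θ₂) * cos α + (c * sin θ₁) * cos β := by rw [hA, hB]; ring
        _ ≤ _ := by linarith
    exact le_of_mul_le_mul_left h3 h12
  have := mul_le_mul_of_nonneg_left main hx
  unfold lc at hcc ⊢
  nlinarith

end Pool.Agent.Helper50.GT
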